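import Mathlib

namespace Pool.Agent.Helper17.WES

/-- identity for maxima -/
theorem max_identity (x x' y y' : ℕ) :
    max (max (y * x') (y' * x)) (x * x') * max (max (x * y') (x' * y)) (y * y') =
      max x y * max x' y' * max (x * y') (x' * y) := by
  rcases le_total x y with h | h <;> rcases le_total x' y' with h' | h'
  · have e1 : x * x' ≤ y * x' := Nat.mul_le_mul_right _ h
    have e2 : x * y' ≤ y * y' := Nat.mul_le_mul_right _ h
    have e3 : x' * y ≤ y * y' := by rw [Nat.mul_comm x' y]; exact Nat.mul_le_mul_left _ h'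
    rw [max_eq_left (le_max_of_le_left e1), max_eq_right (max_le e2 e3), max_eq_right h,
      max_eq_right h', max_comm (y * x') (y' * x), Nat.mul_comm y' x, Nat.mul_comm y x',
      Nat.mul_comm]
  · have e1 : x * x' ≤ y * x' := Nat.mul_le_mul_right _ h
    have e2 : y' * x ≤ y * x' := by
      calc y' * x ≤ x' * y := Nat.mul_le_mul h' h
        _ = y * x' := Nat.mul_comm _ _
    have e3 : x * y' ≤ x' * y := by
      calc x * y' = y' * x := Nat.mul_comm _ _
        _ ≤ x' * y := Nat.mul_le_mul h' h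
    have e4 : y * y' ≤ x' * y := by rw [Nat.mul_comm x' y]; exact Nat.mul_le_mul_left _ h'
    rw [max_eq_left e2, max_eq_left e1, max_eq_right e3, max_eq_left e4, max_eq_right h,
      max_eq_left h']
  · have e1 : y * x' ≤ y' * x := by
      calc y * x' = x' * y := Nat.mul_comm _ _
        _ ≤ y' * x := Nat.mul_le_mul h' h
    have e2 : x * x' ≤ y' * x := by rw [Nat.mul_comm y' x]; exact Nat.mul_le_mul_left _ h'
    have e3 : x' * y ≤ x * y' := by
      calc x' * y ≤ y' * x := Nat.mul_le_mul h' h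
        _ = x * y' := Nat.mul_comm _ _
    have e4 : y * y' ≤ x * y' := Nat.mul_le_mul_right _ h
    rw [max_eq_right e1, max_eq_left e2, max_eq_left e3, max_eq_left e4, max_eq_left h,
      max_eq_right h', Nat.mul_comm y' x]
  · have e1 : y * x' ≤ x * x' := Nat.mul_le_mul_right _ h
    have e2 : y' * x ≤ x * x' := by rw [Nat.mul_comm y' x]; exact Nat.mul_le_mul_left _ h'
    have e3 : y * y' ≤ x * y' := Nat.mul_le_mul_right _ h
    rw [max_eq_right (max_le e1 e2), max_eq_left (le_max_of_le_left e3), max_eq_left h,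
      max_eq_left h']

theorem gcd_aux (x y x' y' : ℕ) (h : Nat.Coprime x y) (h' : Nat.Coprime x' y') :
    Nat.gcd (Nat.gcd (y * x') (y' * x)) (x * x') = Nat.gcd x x' := by
  have : Nat.gcd (Nat.gcd (y * x') (y' * x)) (x * x') =
      Nat.gcd (Nat.gcd (y * x') (x * x')) (y' * x) := by
    rw [Nat.gcd_assoc, Nat.gcd_comm (y' * x), ← Nat.gcd_assoc]
  rw [this, Nat.gcd_mul_right, Nat.Coprime.gcd_eq_one h.symm, one_mul, Nat.gcd_comm x x']
  exact Nat.Coprime.gcd_mul_left_cancel_right x h'.symm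

theorem gcd_cross (x y x' y' : ℕ) (hx : 0 < x) (hy : 0 < y)
    (h : Nat.Coprime x y) (h' : Nat.Coprime x' y') :
    Nat.gcd (x * y') (x' * y) = Nat.gcd x x' * Nat.gcd y y' := by
  obtain ⟨d, X, X', hd, hX, rfl, rfl⟩ := Nat.exists_coprime' (m := x) (n := x')
    (Nat.gcd_pos_of_pos_left _ hx)
  obtain ⟨e, Y, Y', he, hY, rfl, rfl⟩ := Nat.exists_coprime' (m := y) (n := y')
    (Nat.gcd_pos_of_pos_left _ hy)
  have a1 : X * d * (Y' * e) = (d * e) * (X * Y') := by ring
  have a2 : X' * d * (Y * e) = (d * e) * (X' * Y) := by ring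
  have b1 : Nat.gcd (X * d) (X' * d) = d := by
    rw [Nat.gcd_mul_right, hX.gcd_eq_one, one_mul]
  have b2 : Nat.gcd (Y * e) (Y' * e) = e := by
    rw [Nat.gcd_mul_right, hY.gcd_eq_one, one_mul]
  rw [a1, a2, Nat.gcd_mul_left, b1, b2]
  have c1 : Nat.Coprime X Y := Nat.Coprime.coprime_mul_right (Nat.Coprime.coprime_mul_right_right h)
  have c2 : Nat.Coprime X' Y' :=
    Nat.Coprime.coprime_mul_right (Nat.Coprime.coprime_mul_right_right h')
  have c3 : Nat.Coprime (X * Y') (X' * Y) :=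
    Nat.Coprime.mul_left (Nat.Coprime.mul_right hX c1) (Nat.Coprime.mul_right c2.symm hY.symm)
  rw [c3.gcd_eq_one, mul_one]

/-- identity for gcds -/
theorem gcd_identity (x x' y y' : ℕ) (hx : 0 < x) (hx' : 0 < x') (hy : 0 < y) :
    Nat.gcd (Nat.gcd (y * x') (y' * x)) (x * x') * Nat.gcd (Nat.gcd (x * y') (x' * y)) (y * y') =
      Nat.gcd x y * Nat.gcd x' y' * Nat.gcd (x * y') (x' * y) := by
  obtain ⟨g, x1, y1, hg, hc, rfl, rfl⟩ := Nat.exists_coprime' (m := x) (n := y)
    (Nat.gcd_pos_of_pos_left _ hx)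
  obtain ⟨g', x1', y1', hg', hc', rfl, rfl⟩ := Nat.exists_coprime' (m := x') (n := y')
    (Nat.gcd_pos_of_pos_left _ hx')
  have a1 : y1 * g * (x1' * g') = (g * g') * (y1 * x1') := by ring
  have a2 : y1' * g' * (x1 * g) = (g * g') * (y1' * x1) := by ring
  have a3 : x1 * g * (x1' * g') = (g * g') * (x1 * x1') := by ring
  have a4 : x1 * g * (y1' * g') = (g * g') * (x1 * y1') := by ring
  have a5 : x1' * g' * (y1 * g) = (g * g') * (x1' * y1) := by ring
  have a6 : y1 * g * (y1' * g') = (g * g') * (y1 * y1') := by ring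
  rw [a1, a2, a3, a4, a5, a6]
  simp only [Nat.gcd_mul_left]
  rw [gcd_aux x1 y1 x1' y1' hc hc', gcd_aux y1 x1 y1' x1' hc.symm hc'.symm]
  have b1 : Nat.gcd (x1 * g) (y1 * g) = g := by
    rw [Nat.gcd_mul_right, hc.gcd_eq_one, one_mul]
  have b2 : Nat.gcd (x1' * g') (y1' * g') = g' := by
    rw [Nat.gcd_mul_right, hc'.gcd_eq_one, one_mul]
  rw [b1, b2]
  have b3 : Nat.gcd (x1 * y1') (x1' * y1) = Nat.gcd x1 x1' * Nat.gcd y1 y1' :=
    gcd_cross x1 y1 x1' y1' (Nat.pos_of_mul_pos_right hx) (Nat.pos_of_mul_pos_right hy) hc hc'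
  rw [b3]
  ring

theorem claimA (x x' y y' : ℕ) (hx : 0 < x) (hne : x ≠ y) (h : x + x' = y + y') :
    max x x' * Nat.gcd (Nat.gcd (y * x') (y' * x)) (x * x') ≤
      Nat.gcd x x' * max (max (y * x') (y' * x)) (x * x') := by
  set G := Nat.gcd (Nat.gcd (y * x') (y' * x)) (x * x') with hG
  set M := max (max (y * x') (y' * x)) (x * x') with hM
  have g1 : G ∣ y * x' := (Nat.gcd_dvd_left _ _).trans (Nat.gcd_dvd_left _ _)
  have g2 : G ∣ y' * x := (Nat.gcd_dvd_left _ _).trans (Nat.gcd_dvd_right _ _)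
  have g3 : G ∣ x * x' := Nat.gcd_dvd_right _ _
  have m1 : y * x' ≤ M := le_trans (le_max_left _ _) (le_max_left _ _)
  have m2 : y' * x ≤ M := le_trans (le_max_right _ _) (le_max_left _ _)
  have m3 : x * x' ≤ M := le_max_right _ _
  have key : ∃ D : ℕ, 0 < D ∧ G ∣ D * x' ∧ G ∣ D * x ∧ D * x' ≤ M ∧ D * x ≤ M := by
    rcases Nat.lt_or_gt_of_ne hne with hlt | hlt
    · obtain ⟨D, rfl⟩ := Nat.exists_eq_add_of_lt hlt
      have hx' : x' = y' + (D + 1) := by omega
      refine ⟨D + 1, Nat.succ_pos _, ?_, ?_, ?_, ?_⟩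
      · have : (D + 1) * x' = (x + D + 1) * x' - x * x' := by
          have : (x + D + 1) * x' = x * x' + (D + 1) * x' := by ring
          omega
        rw [this]; exact Nat.dvd_sub g1 g3
      · have : (D + 1) * x = x * x' - y' * x := by
          have : x * x' = y' * x + (D + 1) * x := by rw [hx']; ring
          omega
        rw [this]; exact Nat.dvd_sub g3 g2
      · refine le_trans ?_ m1
        apply Nat.mul_le_mul_right; omega
      · refine le_trans ?_ m3
        rw [Nat.mul_comm x x']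
        apply Nat.mul_le_mul_right; omega
    · obtain ⟨D, rfl⟩ := Nat.exists_eq_add_of_lt hlt
      have hx' : y' = x' + (D + 1) := by omega
      refine ⟨D + 1, Nat.succ_pos _, ?_, ?_, ?_, ?_⟩
      · have : (D + 1) * x' = (y + D + 1) * x' - y * x' := by
          have : (y + D + 1) * x' = y * x' + (D + 1) * x' := by ring
          omega
        rw [this]; exact Nat.dvd_sub g3 g1
      · have : (D + 1) * (y + D + 1) = y' * (y + D + 1) - (y + D + 1) * x' := by
          have : y' * (y + D + 1) = (y + D + 1) * x' + (D + 1) * (y + D + 1) := by rw [hx']; ring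
          omega
        rw [this]; exact Nat.dvd_sub g2 g3
      · refine le_trans ?_ m3
        apply Nat.mul_le_mul_right; omega
      · refine le_trans ?_ m2
        apply Nat.mul_le_mul_right; omega
  obtain ⟨D, hD, d1, d2, l1, l2⟩ := key
  have hgx : 0 < Nat.gcd x x' := Nat.gcd_pos_of_pos_left _ hx
  have h1 : G ≤ D * Nat.gcd x x' := by
    apply Nat.le_of_dvd (Nat.mul_pos hD hgx)
    rw [← Nat.gcd_mul_left]
    exact Nat.dvd_gcd d2 d1
  have h2 : D * max x x' ≤ M := by
    rw [← Nat.mul_max_mul_left]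
    exact max_le l2 l1
  calc max x x' * G ≤ max x x' * (D * Nat.gcd x x') := Nat.mul_le_mul_left _ h1
    _ = Nat.gcd x x' * (D * max x x') := by ring
    _ ≤ Nat.gcd x x' * M := Nat.mul_le_mul_left _ h2

/-- Height gap inequality in multiplicative form. -/
theorem gap_mul (x x' y y' : ℕ) (hx : 0 < x) (hx' : 0 < x') (hy : 0 < y) (hne : x ≠ y)
    (h : x + x' = y + y') :
    max x x' * max y y' * (Nat.gcd x y * Nat.gcd x' y' * Nat.gcd (x * y') (x' * y)) ≤
      Nat.gcd x x' * Nat.gcd y y' * (max x y * max x' y' * max (x * y') (x' * y)) := by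
  rw [← gcd_identity x x' y y' hx hx' hy, ← max_identity x x' y y']
  have h1 := claimA x x' y y' hx hne h
  have h2 := claimA y y' x x' hy hne.symm h.symm
  have e1 : Nat.gcd (Nat.gcd (x * y') (x' * y)) (y * y') =
    Nat.gcd (Nat.gcd (x * y') (x' * y)) (y * y') := rfl
  calc max x x' * max y y' * (Nat.gcd (Nat.gcd (y * x') (y' * x)) (x * x') *
        Nat.gcd (Nat.gcd (x * y') (x' * y)) (y * y'))
      = (max x x' * Nat.gcd (Nat.gcd (y * x') (y' * x)) (x * x')) *
        (max y y' * Nat.gcd (Nat.gcd (x * y') (x' * y)) (y * y')) := by ring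
    _ ≤ (Nat.gcd x x' * max (max (y * x') (y' * x)) (x * x')) *
        (Nat.gcd y y' * max (max (x * y') (x' * y)) (y * y')) := Nat.mul_le_mul h1 h2
    _ = _ := by ring

/-- The distance log H(a/b). -/
noncomputable def D (a b : ℕ) : ℝ := Real.log (max a b : ℕ) - Real.log (Nat.gcd a b : ℕ)

theorem gap (x x' y y' : ℕ) (hx : 0 < x) (hx' : 0 < x') (hy : 0 < y) (hy' : 0 < y')
    (hne : x ≠ y) (h : x + x' = y + y') :
    D x x' + D y y' ≤ D x y + D x' y' + D (x * y') (x' * y) := by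
  have hm := gap_mul x x' y y' hx hx' hy hne h
  have hg : ∀ a b : ℕ, 0 < a → (0 : ℝ) < (Nat.gcd a b : ℕ) := fun a b ha => by
    exact_mod_cast Nat.gcd_pos_of_pos_left _ ha
  have hM : ∀ a b : ℕ, 0 < a → (0 : ℝ) < (max a b : ℕ) := fun a b ha => by
    exact_mod_cast lt_max_of_lt_left ha
  have hr : (((max x x' : ℕ) : ℝ) * (max y y' : ℕ)) * ((Nat.gcd x y : ℕ) * (Nat.gcd x' y' : ℕ) *
      (Nat.gcd (x * y') (x' * y) : ℕ)) ≤ ((Nat.gcd x x' : ℕ) * (Nat.gcd y y' : ℕ)) *
      (((max x y : ℕ) : ℝ) * (max x' y' : ℕ) * (max (x * y') (x' * y) : ℕ)) := by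
    exact_mod_cast hm
  have hxy' : 0 < x * y' := Nat.mul_pos hx hy'
  have hl := Real.log_le_log (by
    have := hM x x' hx
    have := hM y y' hy
    have := hg x y hx
    have := hg x' y' hx'
    have := hg (x * y') (x' * y) hxy'
    positivity) hr
  have n1 := (hM x x' hx).ne'
  have n2 := (hM y y' hy).ne'
  have n3 := (hg x y hx).ne'
  have n4 := (hg x' y' hx').ne'
  have n5 := (hg (x * y') (x' * y) hxy').ne'
  have n6 := (hg x x' hx).ne'
  have n7 := (hg y y' hy).ne'
  have n8 := (hM x y hx).ne'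
  have n9 := (hM x' y' hx').ne'
  have n10 := (hM (x * y') (x' * y) hxy').ne'
  rw [Real.log_mul (mul_ne_zero n1 n2) (mul_ne_zero (mul_ne_zero n3 n4) n5),
    Real.log_mul n1 n2, Real.log_mul (mul_ne_zero n3 n4) n5, Real.log_mul n3 n4,
    Real.log_mul (mul_ne_zero n6 n7) (mul_ne_zero (mul_ne_zero n8 n9) n10),
    Real.log_mul n6 n7, Real.log_mul (mul_ne_zero n8 n9) n10, Real.log_mul n8 n9] at hl
  unfold D
  linarith

end Pool.Agent.Helper17.WES
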