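import Mathlib
import Pool.Agent.Helper17.WES.Gap

namespace Pool.Agent.Helper17.WES

open Finset

/-- The coordinates: half of the logarithm and half of the weighted valuations. -/
noncomputable def lam (k : Option ℕ) (x : ℕ) : ℝ :=
  match k with
  | none => Real.log x / 2
  | some p => (x.factorization p : ℝ) * Real.log p / 2

theorem lam_mul (k : Option ℕ) (x y : ℕ) (hx : x ≠ 0) (hy : y ≠ 0) :
    lam k (x * y) = lam k x + lam k y := by
  cases k with
  | none =>
    simp only [lam]
    rw [Nat.cast_mul, Real.log_mul (by exact_mod_cast hx) (by exact_mod_cast hy)]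
    ring
  | some p =>
    simp only [lam]
    rw [Nat.factorization_mul hx hy]
    simp only [Finsupp.coe_add, Pi.add_apply, Nat.cast_add]
    ring

theorem log_eq_sum (P : Finset ℕ) (x : ℕ) (hP : x.primeFactors ⊆ P) :
    Real.log x = ∑ p ∈ P, (x.factorization p : ℝ) * Real.log p := by
  rw [Real.log_nat_eq_sum_factorization, Finsupp.sum_of_support_subset _ (s := P)]
  · simpa using hP
  · intro i _; simp

theorem D_eq (P : Finset ℕ) (x y : ℕ) (hx : x ≠ 0) (hy : y ≠ 0) (hPx : x.primeFactors ⊆ P)
    (hPy : y.primeFactors ⊆ P) :
    D x y = ∑ k ∈ insertNone P, |lam k x - lam k y| := by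
  rw [Finset.sum_insertNone]
  have hg : (Nat.gcd x y).primeFactors ⊆ P :=
    (Nat.primeFactors_mono (Nat.gcd_dvd_left x y) hx).trans hPx
  have e1 := log_eq_sum P x hPx
  have e2 := log_eq_sum P y hPy
  have e3 := log_eq_sum P (Nat.gcd x y) hg
  have h1 : ∀ p ∈ P, |lam (some p) x - lam (some p) y| =
      ((x.factorization p : ℝ) * Real.log p + (y.factorization p : ℝ) * Real.log p) / 2 -
        ((Nat.gcd x y).factorization p : ℝ) * Real.log p := by
    intro p _
    have hlog : 0 ≤ Real.log p := Real.log_natCast_nonneg p
    rw [Nat.factorization_gcd hx hy]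
    simp only [lam, Finsupp.inf_apply]
    rcases le_total (x.factorization p) (y.factorization p) with h | h
    · have h' : (x.factorization p : ℝ) ≤ y.factorization p := by exact_mod_cast h
      have : (x.factorization p ⊓ y.factorization p) = x.factorization p := min_eq_left h
      rw [this, abs_of_nonpos (by nlinarith)]
      ring
    · have h' : (y.factorization p : ℝ) ≤ x.factorization p := by exact_mod_cast h
      have : (x.factorization p ⊓ y.factorization p) = y.factorization p := min_eq_right h
      rw [this, abs_of_nonneg (by nlinarith)]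
      ring
  rw [Finset.sum_congr rfl h1, Finset.sum_sub_distrib, ← Finset.sum_div,
    Finset.sum_add_distrib, ← e1, ← e2, ← e3]
  have h0 : |lam none x - lam none y| = Real.log (max x y : ℕ) - (Real.log x + Real.log y) / 2 := by
    simp only [lam]
    have px : (0 : ℝ) < x := by exact_mod_cast Nat.pos_of_ne_zero hx
    have py : (0 : ℝ) < y := by exact_mod_cast Nat.pos_of_ne_zero hy
    rcases le_total x y with h | h
    · have : Real.log x ≤ Real.log y := Real.log_le_log px (by exact_mod_cast h)
      rw [max_eq_right h, abs_of_nonpos (by linarith)]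
      ring
    · have : Real.log y ≤ Real.log x := Real.log_le_log py (by exact_mod_cast h)
      rw [max_eq_left h, abs_of_nonneg (by linarith)]
      ring
  rw [h0]
  unfold D
  ring

end Pool.Agent.Helper17.WES
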