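import Mathlib

namespace Pool.Agent.Helper17.WES

open Finset

theorem min_psd {ι : Type*} [DecidableEq ι] (n : ℕ) : ∀ (s : Finset ι) (c z : ι → ℝ),
    s.card = n → (∀ i ∈ s, 0 ≤ z i) →
    0 ≤ ∑ i ∈ s, ∑ j ∈ s, c i * c j * min (z i) (z j) := by
  induction n with
  | zero =>
    intro s c z hs _
    rw [Finset.card_eq_zero] at hs
    subst hs
    simp
  | succ n ih =>
    intro s c z hs hz
    have hne : s.Nonempty := by
      rw [← Finset.card_pos]; omega
    obtain ⟨i0, hi0, hmin⟩ := s.exists_min_image z hne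
    have key : ∀ i ∈ s, ∀ j ∈ s, c i * c j * min (z i) (z j) =
        z i0 * (c i * c j) + c i * c j * min (z i - z i0) (z j - z i0) := by
      intro i _ j _
      rw [min_sub_sub_right]
      ring
    have h1 : ∑ i ∈ s, ∑ j ∈ s, c i * c j * min (z i) (z j) =
        z i0 * (∑ i ∈ s, c i) ^ 2 +
          ∑ i ∈ s, ∑ j ∈ s, c i * c j * min (z i - z i0) (z j - z i0) := by
      rw [pow_two, Finset.sum_mul_sum, Finset.mul_sum, ← Finset.sum_add_distrib]
      apply Finset.sum_congr rfl
      intro i hi
      rw [Finset.mul_sum, ← Finset.sum_add_distrib]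
      apply Finset.sum_congr rfl
      intro j hj
      exact key i hi j hj
    have h2 : ∑ i ∈ s, ∑ j ∈ s, c i * c j * min (z i - z i0) (z j - z i0) =
        ∑ i ∈ s.erase i0, ∑ j ∈ s.erase i0, c i * c j * min (z i - z i0) (z j - z i0) := by
      have hz0 : ∀ i ∈ s, c i0 * c i * min (z i0 - z i0) (z i - z i0) = 0 := by
        intro i hi
        have : min (z i0 - z i0) (z i - z i0) = 0 := by
          rw [sub_self]; exact min_eq_left (sub_nonneg.2 (hmin i hi))
        rw [this, mul_zero]
      have hz1 : ∀ i ∈ s, c i * c i0 * min (z i - z i0) (z i0 - z i0) = 0 := by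
        intro i hi
        have : min (z i - z i0) (z i0 - z i0) = 0 := by
          rw [sub_self]; exact min_eq_right (sub_nonneg.2 (hmin i hi))
        rw [this, mul_zero]
      rw [← Finset.sum_erase_add s _ hi0, Finset.sum_eq_zero hz0, add_zero]
      apply Finset.sum_congr rfl
      intro i hi
      rw [← Finset.sum_erase_add s _ hi0, hz1 i (Finset.mem_of_mem_erase hi), add_zero]
    rw [h1, h2]
    have h3 := ih (s.erase i0) c (fun i => z i - z i0)
      (by rw [Finset.card_erase_of_mem hi0, hs]; rfl)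
      (fun i hi => sub_nonneg.2 (hmin i (Finset.mem_of_mem_erase hi)))
    have h4 : 0 ≤ z i0 * (∑ i ∈ s, c i) ^ 2 := mul_nonneg (hz i0 hi0) (sq_nonneg _)
    linarith

/-- The absolute value kernel is conditionally negative definite. -/
theorem cnd {ι : Type*} [DecidableEq ι] (s : Finset ι) (c z : ι → ℝ)
    (hc : ∑ i ∈ s, c i = 0) :
    ∑ i ∈ s, ∑ j ∈ s, c i * c j * |z i - z j| ≤ 0 := by
  rcases s.eq_empty_or_nonempty with rfl | hne
  · simp
  obtain ⟨i0, hi0, hmin⟩ := s.exists_min_image z hne
  have key : ∀ i j, c i * c j * |z i - z j| =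
      c i * (z i - z i0) * c j + c i * (c j * (z j - z i0)) -
        2 * (c i * c j * min (z i - z i0) (z j - z i0)) := by
    intro i j
    have : |z i - z j| = (z i - z i0) + (z j - z i0) - 2 * min (z i - z i0) (z j - z i0) := by
      rcases le_total (z i) (z j) with h | h
      · rw [min_eq_left (by linarith), abs_of_nonpos (by linarith)]; ring
      · rw [min_eq_right (by linarith), abs_of_nonneg (by linarith)]; ring
    rw [this]; ring
  have hsum : ∑ i ∈ s, ∑ j ∈ s, c i * c j * |z i - z j| =
      - 2 * ∑ i ∈ s, ∑ j ∈ s, c i * c j * min (z i - z i0) (z j - z i0) := by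
    have e1 : ∀ i ∈ s, ∑ j ∈ s, c i * c j * |z i - z j| =
        c i * (∑ j ∈ s, c j * (z j - z i0)) +
        -2 * ∑ j ∈ s, c i * c j * min (z i - z i0) (z j - z i0) := by
      intro i _
      simp_rw [key]
      rw [Finset.sum_sub_distrib, Finset.sum_add_distrib, ← Finset.mul_sum, ← Finset.mul_sum,
        ← Finset.mul_sum, hc]
      ring
    rw [Finset.sum_congr rfl e1, Finset.sum_add_distrib, ← Finset.sum_mul, hc, ← Finset.mul_sum]
    ring
  rw [hsum]
  have := min_psd s.card s c (fun i => z i - z i0) rfl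
    (fun i hi => sub_nonneg.2 (hmin i hi))
  linarith

/-- The energy form. -/
noncomputable def En {α β : Type*} (F : Finset α) (a : α → ℝ) (G : Finset β) (b : β → ℝ) : ℝ :=
  ∑ i ∈ F, ∑ j ∈ G, |a i - b j|

theorem En_comm {α β : Type*} (F : Finset α) (a : α → ℝ) (G : Finset β) (b : β → ℝ) :
    En F a G b = En G b F a := by
  unfold En
  rw [Finset.sum_comm]
  refine Finset.sum_congr rfl fun j _ => Finset.sum_congr rfl fun i _ => abs_sub_comm _ _

theorem cnd3 {α β γ : Type*} [DecidableEq α] [DecidableEq β] [DecidableEq γ]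
    (F : Finset α) (a : α → ℝ) (G : Finset β) (b : β → ℝ) (H : Finset γ) (c : γ → ℝ)
    (p q r : ℝ) (h : p * F.card + q * G.card + r * H.card = 0) :
    p ^ 2 * En F a F a + q ^ 2 * En G b G b + r ^ 2 * En H c H c
      + 2 * p * q * En F a G b + 2 * p * r * En F a H c + 2 * q * r * En G b H c ≤ 0 := by
  have hh := cnd (F.disjSum (G.disjSum H)) (Sum.elim (fun _ => p) (Sum.elim (fun _ => q) (fun _ => r)))
    (Sum.elim a (Sum.elim b c)) (by
      simp [Finset.sum_disjSum]
      linarith)
  simp only [Finset.sum_disjSum, Sum.elim_inl, Sum.elim_inr, Finset.sum_add_distrib] at hh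
  have c1 : En G b F a = En F a G b := En_comm _ _ _ _
  have c2 : En H c F a = En F a H c := En_comm _ _ _ _
  have c3 : En H c G b = En G b H c := En_comm _ _ _ _
  unfold En at *
  simp only [← Finset.mul_sum] at hh
  rw [c1, c2, c3] at hh
  linarith

theorem cnd2 {α β : Type*} [DecidableEq α] [DecidableEq β]
    (F : Finset α) (a : α → ℝ) (G : Finset β) (b : β → ℝ)
    (p q : ℝ) (h : p * F.card + q * G.card = 0) :
    p ^ 2 * En F a F a + q ^ 2 * En G b G b + 2 * p * q * En F a G b ≤ 0 := by
  have := cnd3 F a G b (∅ : Finset ℕ) (fun _ => 0) p q 0 (by simpa using h)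
  simpa [En] using this

end Pool.Agent.Helper17.WES
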