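import Mathlib
import Pool.Agent.Helper17.WES.Cnd

namespace Pool.Agent.Helper17.WES

open Finset

/-- Sum of distances. -/
noncomputable def Dbar {β : Type*} (A : Finset β) (l : β → ℝ) : ℝ :=
  ∑ a ∈ A, ∑ b ∈ A, |l a - l b|

noncomputable def Q1 {β : Type*} (A : Finset β) (l : β → ℝ) : ℝ :=
  ∑ x ∈ A, ∑ a ∈ A, ∑ s ∈ A, ∑ t ∈ A, |(l x - l a) + (l s - l t) / 2|

noncomputable def Q2 {β : Type*} (A : Finset β) (l : β → ℝ) : ℝ :=
  ∑ x ∈ A, ∑ a ∈ A, ∑ s ∈ A, ∑ t ∈ A, |(l x - l a) + (l s - l t)|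

noncomputable def Phi1 {β : Type*} (A : Finset β) (l : β → ℝ) (x s : ℝ) : ℝ :=
  4 / (5 * (#A : ℝ)) * ∑ t ∈ A, |s - l t| + 2 / (5 * (#A : ℝ)) * ∑ a ∈ A, |x - l a|
    - 9 / (25 * (#A : ℝ) ^ 2) * Dbar A l
    - 8 / (25 * (#A : ℝ) ^ 2) * ∑ a ∈ A, ∑ t ∈ A, |(x - l a) + (s - l t) / 2|

noncomputable def Phi2 {β : Type*} (A : Finset β) (l : β → ℝ) (s s' : ℝ) : ℝ :=
  1 / (#A : ℝ) ^ 2 * ∑ t ∈ A, ∑ t' ∈ A, |(s - l t) + (l t' - s')|
    - 1 / (2 * (#A : ℝ) ^ 4) * Q2 A l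

theorem fiber_p {α β : Type*} [DecidableEq α] [DecidableEq β] (F : Finset α) (X S : α → ℝ)
    (A : Finset β) (l : β → ℝ) (c : ℝ) (hF : F.Nonempty) (hA : A.Nonempty)
    (h : ∀ i ∈ F, 2 * X i + S i = c) :
    (∑ i ∈ F, ∑ j ∈ F, |X i - X j|) / (#F : ℝ) ≤ ∑ i ∈ F, Phi1 A l (X i) (S i) := by
  have hn : (0 : ℝ) < (#A : ℝ) := by exact_mod_cast hA.card_pos
  have hf : (0 : ℝ) < (#F : ℝ) := by exact_mod_cast hF.card_pos
  set n : ℝ := (#A : ℝ) with hn_def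
  set f : ℝ := (#F : ℝ) with hf_def
  have main := cnd3 F X A (fun t => (c - l t) / 2) A l 1 (-(4 / 5) * f / n) (-(1 / 5) * f / n)
    (by rw [← hf_def, ← hn_def]; field_simp; ring)
  have eGG : En A (fun t => (c - l t) / 2) A (fun t => (c - l t) / 2) = Dbar A l / 2 := by
    unfold En Dbar
    rw [Finset.sum_comm, Finset.sum_div]
    refine Finset.sum_congr rfl fun i _ => ?_
    rw [Finset.sum_div]
    refine Finset.sum_congr rfl fun j _ => ?_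
    rw [show (c - l j) / 2 - (c - l i) / 2 = (l i - l j) / 2 by ring, abs_div, abs_two]
  have eHH : En A l A l = Dbar A l := rfl
  have eFG : En F X A (fun t => (c - l t) / 2) = ∑ i ∈ F, (∑ t ∈ A, |S i - l t|) / 2 := by
    unfold En
    refine Finset.sum_congr rfl fun i hi => ?_
    rw [Finset.sum_div]
    refine Finset.sum_congr rfl fun t _ => ?_
    rw [show X i - (c - l t) / 2 = -((S i - l t) / 2) by rw [← h i hi]; ring, abs_neg, abs_div,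
      abs_two]
  have eGH : ∀ i ∈ F, En A (fun t => (c - l t) / 2) A l =
      ∑ a ∈ A, ∑ t ∈ A, |(X i - l a) + (S i - l t) / 2| := by
    intro i hi
    unfold En
    rw [Finset.sum_comm]
    refine Finset.sum_congr rfl fun a _ => Finset.sum_congr rfl fun t _ => ?_
    congr 1
    rw [← h i hi]; ring
  have eGH' : f * En A (fun t => (c - l t) / 2) A l =
      ∑ i ∈ F, ∑ a ∈ A, ∑ t ∈ A, |(X i - l a) + (S i - l t) / 2| := by
    rw [← Finset.sum_congr rfl eGH, Finset.sum_const, nsmul_eq_mul]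
  have eFF : En F X F X = ∑ i ∈ F, ∑ j ∈ F, |X i - X j| := rfl
  have eFH : En F X A l = ∑ i ∈ F, ∑ a ∈ A, |X i - l a| := rfl
  rw [eGG, eHH, eFG] at main
  rw [div_le_iff₀ hf]
  have hsum : ∑ i ∈ F, Phi1 A l (X i) (S i) =
      4 / (5 * n) * (∑ i ∈ F, ∑ t ∈ A, |S i - l t|) + 2 / (5 * n) * (∑ i ∈ F, ∑ a ∈ A, |X i - l a|)
      - f * (9 / (25 * n ^ 2) * Dbar A l)
      - 8 / (25 * n ^ 2) * (∑ i ∈ F, ∑ a ∈ A, ∑ t ∈ A, |(X i - l a) + (S i - l t) / 2|) := by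
    unfold Phi1
    rw [Finset.sum_sub_distrib, Finset.sum_sub_distrib, Finset.sum_add_distrib,
      Finset.sum_const, nsmul_eq_mul, ← Finset.mul_sum, ← Finset.mul_sum, ← Finset.mul_sum]
  rw [hsum, ← eGH', ← eFF]
  rw [← Finset.sum_div] at main
  rw [eFH] at main
  set U := ∑ i ∈ F, ∑ t ∈ A, |S i - l t|
  set V := ∑ i ∈ F, ∑ a ∈ A, |X i - l a|
  set W := En A (fun t => (c - l t) / 2) A l
  set Z := En F X F X
  have e : (4 / (5 * n) * U + 2 / (5 * n) * V - f * (9 / (25 * n ^ 2) * Dbar A l)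
      - 8 / (25 * n ^ 2) * (f * W)) * f - Z = -(1 ^ 2 * Z + (-(4 / 5) * f / n) ^ 2 * (Dbar A l / 2)
      + (-(1 / 5) * f / n) ^ 2 * Dbar A l + 2 * 1 * (-(4 / 5) * f / n) * (U / 2)
      + 2 * 1 * (-(1 / 5) * f / n) * V + 2 * (-(4 / 5) * f / n) * (-(1 / 5) * f / n) * W) := by
    field_simp
    ring
  linarith

theorem fiber_r {α β : Type*} [DecidableEq α] [DecidableEq β] (F : Finset α)
    (X S X' S' : α → ℝ)
    (A : Finset β) (l : β → ℝ) (c c' : ℝ) (hF : F.Nonempty) (hA : A.Nonempty)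
    (h : ∀ i ∈ F, 2 * X i + S i = c) (h' : ∀ i ∈ F, 2 * X' i + S' i = c') :
    (∑ i ∈ F, ∑ j ∈ F, |(X i - X' i) - (X j - X' j)|) / (#F : ℝ) ≤
      ∑ i ∈ F, Phi2 A l (S i) (S' i) := by
  have hn : (0 : ℝ) < (#A : ℝ) := by exact_mod_cast hA.card_pos
  have hf : (0 : ℝ) < (#F : ℝ) := by exact_mod_cast hF.card_pos
  set n : ℝ := (#A : ℝ) with hn_def
  set f : ℝ := (#F : ℝ) with hf_def
  have main := cnd2 F (fun i => X i - X' i) (A ×ˢ A)
    (fun t => (c - l t.1) / 2 - (c' - l t.2) / 2) 1 (-f / n ^ 2)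
    (by rw [Finset.card_product]; push_cast; rw [← hf_def, ← hn_def]; field_simp; ring)
  have eGG : En (A ×ˢ A) (fun t => (c - l t.1) / 2 - (c' - l t.2) / 2) (A ×ˢ A)
      (fun t => (c - l t.1) / 2 - (c' - l t.2) / 2) = Q2 A l / 2 := by
    unfold En Q2
    rw [Finset.sum_product, Finset.sum_comm, Finset.sum_div]
    refine Finset.sum_congr rfl fun t2 _ => ?_
    rw [Finset.sum_div]
    refine Finset.sum_congr rfl fun t1 _ => ?_
    rw [Finset.sum_product, Finset.sum_div]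
    refine Finset.sum_congr rfl fun r1 _ => ?_
    rw [Finset.sum_div]
    refine Finset.sum_congr rfl fun r2 _ => ?_
    simp only
    rw [show (c - l t1) / 2 - (c' - l t2) / 2 - ((c - l r1) / 2 - (c' - l r2) / 2) =
      ((l t2 - l t1) + (l r1 - l r2)) / 2 by ring, abs_div, abs_two]
  have eFG : En F (fun i => X i - X' i) (A ×ˢ A)
      (fun t => (c - l t.1) / 2 - (c' - l t.2) / 2) =
      ∑ i ∈ F, (∑ t ∈ A, ∑ t' ∈ A, |(S i - l t) + (l t' - S' i)|) / 2 := by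
    unfold En
    refine Finset.sum_congr rfl fun i hi => ?_
    rw [Finset.sum_product, Finset.sum_div]
    refine Finset.sum_congr rfl fun t _ => ?_
    rw [Finset.sum_div]
    refine Finset.sum_congr rfl fun t' _ => ?_
    simp only
    rw [show X i - X' i - ((c - l t) / 2 - (c' - l t') / 2) =
      -(((S i - l t) + (l t' - S' i)) / 2) by rw [← h i hi, ← h' i hi]; ring, abs_neg, abs_div,
      abs_two]
  have eFF : En F (fun i => X i - X' i) F (fun i => X i - X' i) =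
    ∑ i ∈ F, ∑ j ∈ F, |(X i - X' i) - (X j - X' j)| := rfl
  rw [eGG, eFG, ← Finset.sum_div] at main
  rw [div_le_iff₀ hf]
  have hsum : ∑ i ∈ F, Phi2 A l (S i) (S' i) =
      1 / n ^ 2 * (∑ i ∈ F, ∑ t ∈ A, ∑ t' ∈ A, |(S i - l t) + (l t' - S' i)|)
      - f * (1 / (2 * n ^ 4) * Q2 A l) := by
    unfold Phi2
    rw [Finset.sum_sub_distrib, Finset.sum_const, nsmul_eq_mul, ← Finset.mul_sum]
  rw [hsum, ← eFF]
  set U := ∑ i ∈ F, ∑ t ∈ A, ∑ t' ∈ A, |(S i - l t) + (l t' - S' i)|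
  set Z := En F (fun i => X i - X' i) F (fun i => X i - X' i)
  have e : (1 / n ^ 2 * U - f * (1 / (2 * n ^ 4) * Q2 A l)) * f - Z =
      -(1 ^ 2 * Z + (-f / n ^ 2) ^ 2 * (Q2 A l / 2) + 2 * 1 * (-f / n ^ 2) * (U / 2)) := by
    field_simp
    ring
  linarith

/-- `Q1 ≥ (3/4) Q2`. -/
theorem Q1_ge {β : Type*} (A : Finset β) (l : β → ℝ) : 3 * Q2 A l ≤ 4 * Q1 A l := by
  have hsym : Q1 A l = ∑ x ∈ A, ∑ a ∈ A, ∑ s ∈ A, ∑ t ∈ A, |(l x - l a) / 2 + (l s - l t)| := by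
    unfold Q1
    have e : ∀ (f : β → β → β → β → ℝ), ∑ x ∈ A, ∑ a ∈ A, ∑ s ∈ A, ∑ t ∈ A, f x a s t =
        ∑ x ∈ A, ∑ a ∈ A, ∑ s ∈ A, ∑ t ∈ A, f s t x a := by
      intro f
      have e1 : ∀ g : β → β → β → β → ℝ, ∑ x ∈ A, ∑ a ∈ A, ∑ s ∈ A, ∑ t ∈ A, g x a s t =
        ∑ u ∈ A ×ˢ A, ∑ v ∈ A ×ˢ A, g u.1 u.2 v.1 v.2 := by
        intro g
        rw [Finset.sum_product]
        refine Finset.sum_congr rfl fun x _ => Finset.sum_congr rfl fun a _ => ?_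
        rw [Finset.sum_product]
      rw [e1, e1 (fun x a s t => f s t x a), Finset.sum_comm]
    rw [e]
    refine Finset.sum_congr rfl fun x _ => Finset.sum_congr rfl fun a _ =>
      Finset.sum_congr rfl fun s _ => Finset.sum_congr rfl fun t _ => ?_
    rw [add_comm]
  have h2 : 3 * Q2 A l ≤ 2 * (Q1 A l + Q1 A l) := by
    conv_rhs => rw [show Q1 A l + Q1 A l = Q1 A l + ∑ x ∈ A, ∑ a ∈ A, ∑ s ∈ A, ∑ t ∈ A,
      |(l x - l a) / 2 + (l s - l t)| by rw [← hsym]]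
    unfold Q1 Q2
    simp only [Finset.mul_sum, ← Finset.sum_add_distrib]
    refine Finset.sum_le_sum fun x _ => Finset.sum_le_sum fun a _ =>
      Finset.sum_le_sum fun s _ => Finset.sum_le_sum fun t _ => ?_
    have h3 := abs_add_le ((l x - l a) + (l s - l t) / 2) ((l x - l a) / 2 + (l s - l t))
    rw [show (l x - l a) + (l s - l t) / 2 + ((l x - l a) / 2 + (l s - l t)) =
      (3 / 2) * ((l x - l a) + (l s - l t)) by ring, abs_mul,
      abs_of_pos (by norm_num : (0 : ℝ) < 3 / 2)] at h3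
    linarith
  linarith

theorem Q2_le {β : Type*} (A : Finset β) (l : β → ℝ) :
    Q2 A l ≤ 2 * (#A : ℝ) ^ 2 * Dbar A l := by
  have : Q2 A l ≤ ∑ x ∈ A, ∑ a ∈ A, ∑ s ∈ A, ∑ t ∈ A, (|l x - l a| + |l s - l t|) := by
    unfold Q2
    refine Finset.sum_le_sum fun x _ => Finset.sum_le_sum fun a _ =>
      Finset.sum_le_sum fun s _ => Finset.sum_le_sum fun t _ => abs_add_le _ _
  refine this.trans (le_of_eq ?_)
  simp only [Finset.sum_add_distrib, Finset.sum_const, nsmul_eq_mul]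
  unfold Dbar
  simp only [← Finset.mul_sum]
  ring

/-- Total of the bounds over the whole product set. -/
theorem total {β : Type*} (A : Finset β) (l : β → ℝ) (hA : A.Nonempty) :
    ∑ x ∈ A, ∑ x' ∈ A, ∑ s ∈ A, ∑ s' ∈ A,
      (Phi1 A l (l x) (l s) + Phi1 A l (l x') (l s') + Phi2 A l (l s) (l s')) ≤
      43 / 25 * (#A : ℝ) ^ 2 * Dbar A l := by
  have hn : (0 : ℝ) < (#A : ℝ) := by exact_mod_cast hA.card_pos
  set n : ℝ := (#A : ℝ) with hn_def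
  have e1 : ∑ x ∈ A, ∑ s ∈ A, Phi1 A l (l x) (l s) = 21 / 25 * Dbar A l
      - 8 / (25 * n ^ 2) * Q1 A l := by
    unfold Phi1
    simp only [Finset.sum_sub_distrib, Finset.sum_add_distrib, ← Finset.mul_sum, Finset.sum_const,
      nsmul_eq_mul]
    have q1 : ∑ x ∈ A, ∑ s ∈ A, ∑ a ∈ A, ∑ t ∈ A, |(l x - l a) + (l s - l t) / 2| = Q1 A l := by
      unfold Q1
      refine Finset.sum_congr rfl fun x _ => ?_
      rw [Finset.sum_comm]
    rw [q1]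
    have d1 : ∑ s ∈ A, ∑ t ∈ A, |l s - l t| = Dbar A l := rfl
    rw [d1, ← hn_def]
    field_simp
    ring
  have e2 : ∑ s ∈ A, ∑ s' ∈ A, Phi2 A l (l s) (l s') = 1 / (2 * n ^ 2) * Q2 A l := by
    unfold Phi2
    simp only [Finset.sum_sub_distrib, ← Finset.mul_sum, Finset.sum_const, nsmul_eq_mul]
    have q2 : ∑ s ∈ A, ∑ s' ∈ A, ∑ t ∈ A, ∑ t' ∈ A, |(l s - l t) + (l t' - l s')| = Q2 A l := by
      unfold Q2
      refine Finset.sum_congr rfl fun s _ => ?_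
      rw [Finset.sum_comm]
      refine Finset.sum_congr rfl fun t _ => ?_
      rw [Finset.sum_comm]
    rw [q2, ← hn_def]
    field_simp
    ring
  have e3 : ∑ x ∈ A, ∑ x' ∈ A, ∑ s ∈ A, ∑ s' ∈ A,
      (Phi1 A l (l x) (l s) + Phi1 A l (l x') (l s') + Phi2 A l (l s) (l s')) =
      n ^ 2 * (∑ x ∈ A, ∑ s ∈ A, Phi1 A l (l x) (l s))
      + n ^ 2 * (∑ x ∈ A, ∑ s ∈ A, Phi1 A l (l x) (l s))
      + n ^ 2 * (∑ s ∈ A, ∑ s' ∈ A, Phi2 A l (l s) (l s')) := by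
    simp only [Finset.sum_add_distrib, Finset.sum_const, nsmul_eq_mul, ← Finset.mul_sum]
    ring
  rw [e3, e1, e2]
  have h1 := Q1_ge A l
  have h2 := Q2_le A l
  rw [← hn_def] at h2
  have e4 : n ^ 2 * (21 / 25 * Dbar A l - 8 / (25 * n ^ 2) * Q1 A l)
      + n ^ 2 * (21 / 25 * Dbar A l - 8 / (25 * n ^ 2) * Q1 A l)
      + n ^ 2 * (1 / (2 * n ^ 2) * Q2 A l) =
      42 / 25 * (n ^ 2 * Dbar A l) - 16 / 25 * Q1 A l + 1 / 2 * Q2 A l := by
    field_simp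
    ring
  rw [e4]
  nlinarith

end Pool.Agent.Helper17.WES
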