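import Mathlib
import Pool.Agent.Helper17.WES.Coord
import Pool.Agent.Helper17.WES.Fiber

namespace Pool.Agent.Helper17.WES

open Finset
open scoped Pointwise

/-- the set of all a^2 b -/
def sqmul (A : Finset ℕ) : Finset ℕ := Finset.image₂ (fun a b => a ^ 2 * b) A A

def key (i : ℕ × ℕ × ℕ × ℕ) : ℕ × ℕ × ℕ :=
  (i.1 + i.2.1, i.1 ^ 2 * i.2.2.1, i.2.1 ^ 2 * i.2.2.2)

/-- the right hand side of the gap inequality -/
noncomputable def T (i j : ℕ × ℕ × ℕ × ℕ) : ℝ :=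
  D i.1 j.1 + D i.2.1 j.2.1 + D (i.1 * j.2.1) (i.2.1 * j.1)

noncomputable def Phi (A : Finset ℕ) (l : ℕ → ℝ) (i : ℕ × ℕ × ℕ × ℕ) : ℝ :=
  Phi1 A l (l i.1) (l i.2.2.1) + Phi1 A l (l i.2.1) (l i.2.2.2) +
    Phi2 A l (l i.2.2.1) (l i.2.2.2)

def primesOf (A : Finset ℕ) : Finset ℕ := A.biUnion Nat.primeFactors

theorem sub_primesOf {A : Finset ℕ} {a : ℕ} (ha : a ∈ A) : a.primeFactors ⊆ primesOf A :=
  Finset.subset_biUnion_of_mem Nat.primeFactors ha

theorem D_nonneg (a b : ℕ) : 0 ≤ D a b := by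
  unfold D
  rcases Nat.eq_zero_or_pos (max a b) with h | h
  · have ha : a = 0 := by have := le_max_left a b; omega
    have hb : b = 0 := by have := le_max_right a b; omega
    subst ha; subst hb; simp
  · have h1 : Nat.gcd a b ≤ max a b := by
      rcases Nat.eq_zero_or_pos a with ha | ha
      · subst ha; simp
      · exact (Nat.gcd_le_left b ha).trans (le_max_left _ _)
    rcases Nat.eq_zero_or_pos (Nat.gcd a b) with h2 | h2
    · rw [Nat.gcd_eq_zero_iff] at h2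
      obtain ⟨rfl, rfl⟩ := h2
      simp
    · have : Real.log (Nat.gcd a b : ℕ) ≤ Real.log (max a b : ℕ) :=
        Real.log_le_log (by exact_mod_cast h2) (by exact_mod_cast h1)
      linarith

theorem T_nonneg (i j : ℕ × ℕ × ℕ × ℕ) : 0 ≤ T i j :=
  add_nonneg (add_nonneg (D_nonneg _ _) (D_nonneg _ _)) (D_nonneg _ _)

theorem T_eq (A : Finset ℕ) (hpos : ∀ a ∈ A, 0 < a) (i j : ℕ × ℕ × ℕ × ℕ)
    (hi1 : i.1 ∈ A) (hi2 : i.2.1 ∈ A) (hj1 : j.1 ∈ A) (hj2 : j.2.1 ∈ A) :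
    T i j = ∑ k ∈ insertNone (primesOf A), (|lam k i.1 - lam k j.1| +
      |lam k i.2.1 - lam k j.2.1| +
      |(lam k i.1 - lam k i.2.1) - (lam k j.1 - lam k j.2.1)|) := by
  have p1 := (hpos _ hi1).ne'
  have p2 := (hpos _ hi2).ne'
  have p3 := (hpos _ hj1).ne'
  have p4 := (hpos _ hj2).ne'
  unfold T
  rw [D_eq (primesOf A) i.1 j.1 p1 p3 (sub_primesOf hi1) (sub_primesOf hj1),
    D_eq (primesOf A) i.2.1 j.2.1 p2 p4 (sub_primesOf hi2) (sub_primesOf hj2),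
    D_eq (primesOf A) (i.1 * j.2.1) (i.2.1 * j.1) (mul_ne_zero p1 p4) (mul_ne_zero p2 p3)
      (by rw [Nat.primeFactors_mul p1 p4]
          exact Finset.union_subset (sub_primesOf hi1) (sub_primesOf hj2))
      (by rw [Nat.primeFactors_mul p2 p3]
          exact Finset.union_subset (sub_primesOf hi2) (sub_primesOf hj1)),
    ← Finset.sum_add_distrib, ← Finset.sum_add_distrib]
  refine Finset.sum_congr rfl fun k _ => ?_
  rw [lam_mul k _ _ p1 p4, lam_mul k _ _ p2 p3]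
  congr 2
  ring

/-- Omega -/
def Om (A : Finset ℕ) : Finset (ℕ × ℕ × ℕ × ℕ) := A ×ˢ A ×ˢ A ×ˢ A

theorem fiber_bound (A : Finset ℕ) (hA : A.Nonempty) (hpos : ∀ a ∈ A, 0 < a)
    (F : Finset (ℕ × ℕ × ℕ × ℕ)) (hF : F.Nonempty) (hsub : F ⊆ Om A) (v : ℕ × ℕ × ℕ)
    (hkey : ∀ i ∈ F, key i = v) :
    (∑ i ∈ F, ∑ j ∈ F, T i j) / (#F : ℝ) ≤
      ∑ i ∈ F, ∑ k ∈ insertNone (primesOf A), Phi A (lam k) i := by
  have hf : (0 : ℝ) < (#F : ℝ) := by exact_mod_cast hF.card_pos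
  have hmem : ∀ i ∈ F, i.1 ∈ A ∧ i.2.1 ∈ A ∧ i.2.2.1 ∈ A ∧ i.2.2.2 ∈ A := by
    intro i hi
    have := hsub hi
    simp only [Om, Finset.mem_product] at this
    exact this
  have e1 : ∑ i ∈ F, ∑ j ∈ F, T i j = ∑ k ∈ insertNone (primesOf A),
      ((∑ i ∈ F, ∑ j ∈ F, |lam k i.1 - lam k j.1|) +
      (∑ i ∈ F, ∑ j ∈ F, |lam k i.2.1 - lam k j.2.1|) +
      (∑ i ∈ F, ∑ j ∈ F, |(lam k i.1 - lam k i.2.1) - (lam k j.1 - lam k j.2.1)|)) := by
    have : ∀ i ∈ F, ∀ j ∈ F, T i j = ∑ k ∈ insertNone (primesOf A), (|lam k i.1 - lam k j.1| +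
      |lam k i.2.1 - lam k j.2.1| +
      |(lam k i.1 - lam k i.2.1) - (lam k j.1 - lam k j.2.1)|) := by
      intro i hi j hj
      exact T_eq A hpos i j (hmem i hi).1 (hmem i hi).2.1 (hmem j hj).1 (hmem j hj).2.1
    rw [Finset.sum_congr rfl fun i hi => Finset.sum_congr rfl fun j hj => this i hi j hj]
    rw [Finset.sum_congr rfl fun i _ => Finset.sum_comm]
    rw [Finset.sum_comm]
    refine Finset.sum_congr rfl fun k _ => ?_
    simp only [Finset.sum_add_distrib]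
  rw [e1, Finset.sum_div, Finset.sum_comm]
  refine Finset.sum_le_sum fun k _ => ?_
  have hX : ∀ i ∈ F, 2 * lam k i.1 + lam k i.2.2.1 = lam k v.2.1 := by
    intro i hi
    obtain ⟨m1, m2, m3, m4⟩ := hmem i hi
    have p1 := (hpos _ m1).ne'
    have p3 := (hpos _ m3).ne'
    rw [← hkey i hi]
    simp only [key]
    rw [lam_mul k _ _ (pow_ne_zero 2 p1) p3, pow_two, lam_mul k _ _ p1 p1]
    ring
  have hX' : ∀ i ∈ F, 2 * lam k i.2.1 + lam k i.2.2.2 = lam k v.2.2 := by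
    intro i hi
    obtain ⟨m1, m2, m3, m4⟩ := hmem i hi
    have p2 := (hpos _ m2).ne'
    have p4 := (hpos _ m4).ne'
    rw [← hkey i hi]
    simp only [key]
    rw [lam_mul k _ _ (pow_ne_zero 2 p2) p4, pow_two, lam_mul k _ _ p2 p2]
    ring
  have b1 := fiber_p F (fun i => lam k i.1) (fun i => lam k i.2.2.1) A (lam k) _ hF hA hX
  have b2 := fiber_p F (fun i => lam k i.2.1) (fun i => lam k i.2.2.2) A (lam k) _ hF hA hX'
  have b3 := fiber_r F (fun i => lam k i.1) (fun i => lam k i.2.2.1) (fun i => lam k i.2.1)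
    (fun i => lam k i.2.2.2) A (lam k) _ _ hF hA hX hX'
  unfold Phi
  rw [Finset.sum_add_distrib, Finset.sum_add_distrib, add_div, add_div]
  exact add_le_add (add_le_add b1 b2) b3

theorem fiber_lower (A : Finset ℕ) (hpos : ∀ a ∈ A, 0 < a) (M : ℝ)
    (hM : ∀ a ∈ A, ∀ b ∈ A, D a b ≤ M)
    (F : Finset (ℕ × ℕ × ℕ × ℕ)) (hF : F.Nonempty) (hsub : F ⊆ Om A) (v : ℕ × ℕ × ℕ)
    (hkey : ∀ i ∈ F, key i = v) :
    2 * ∑ i ∈ F, D i.1 i.2.1 - 2 * M ≤ (∑ i ∈ F, ∑ j ∈ F, T i j) / (#F : ℝ) := by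
  have hf : (0 : ℝ) < (#F : ℝ) := by exact_mod_cast hF.card_pos
  have hmem : ∀ i ∈ F, i.1 ∈ A ∧ i.2.1 ∈ A ∧ i.2.2.1 ∈ A ∧ i.2.2.2 ∈ A := by
    intro i hi
    have := hsub hi
    simp only [Om, Finset.mem_product] at this
    exact this
  have hgap : ∀ i ∈ F, ∀ j ∈ F, i ≠ j → D i.1 i.2.1 + D j.1 j.2.1 ≤ T i j := by
    intro i hi j hj hij
    obtain ⟨m1, m2, m3, m4⟩ := hmem i hi
    obtain ⟨r1, r2, r3, r4⟩ := hmem j hj
    have hk : key i = key j := (hkey i hi).trans (hkey j hj).symm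
    simp only [key, Prod.mk.injEq] at hk
    obtain ⟨k1, k2, k3⟩ := hk
    refine gap i.1 i.2.1 j.1 j.2.1 (hpos _ m1) (hpos _ m2) (hpos _ r1) (hpos _ r2) ?_ k1
    intro h1
    apply hij
    have h2 : i.2.1 = j.2.1 := by omega
    have h3 : i.2.2.1 = j.2.2.1 := by
      rw [h1] at k2
      exact Nat.eq_of_mul_eq_mul_left (pow_pos (hpos _ r1) 2) k2
    have h4 : i.2.2.2 = j.2.2.2 := by
      rw [h2] at k3
      exact Nat.eq_of_mul_eq_mul_left (pow_pos (hpos _ r2) 2) k3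
    exact Prod.ext h1 (Prod.ext h2 (Prod.ext h3 h4))
  rw [le_div_iff₀ hf]
  have h1 : ∑ i ∈ F, ∑ j ∈ F, (if i = j then 0 else D i.1 i.2.1 + D j.1 j.2.1) ≤
      ∑ i ∈ F, ∑ j ∈ F, T i j := by
    refine Finset.sum_le_sum fun i hi => Finset.sum_le_sum fun j hj => ?_
    split_ifs with h
    · exact T_nonneg _ _
    · exact hgap i hi j hj h
  refine le_trans ?_ h1
  have h2 : ∀ i ∈ F, ∑ j ∈ F, (if i = j then (0 : ℝ) else D i.1 i.2.1 + D j.1 j.2.1) =
      (#F : ℝ) * D i.1 i.2.1 + (∑ j ∈ F, D j.1 j.2.1) - 2 * D i.1 i.2.1 := by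
    intro i hi
    have : ∀ j ∈ F, (if i = j then (0 : ℝ) else D i.1 i.2.1 + D j.1 j.2.1) =
        (D i.1 i.2.1 + D j.1 j.2.1) - (if i = j then 2 * D i.1 i.2.1 else 0) := by
      intro j _
      split_ifs with h
      · subst h; ring
      · ring
    rw [Finset.sum_congr rfl this, Finset.sum_sub_distrib, Finset.sum_add_distrib,
      Finset.sum_const, nsmul_eq_mul, Finset.sum_ite_eq, if_pos hi]
  rw [Finset.sum_congr rfl h2, Finset.sum_sub_distrib, Finset.sum_add_distrib, Finset.sum_const,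
    nsmul_eq_mul, ← Finset.mul_sum, ← Finset.mul_sum]
  have h3 : ∑ i ∈ F, D i.1 i.2.1 ≤ (#F : ℝ) * M := by
    rw [← nsmul_eq_mul, ← Finset.sum_const]
    exact Finset.sum_le_sum fun i hi => hM _ (hmem i hi).1 _ (hmem i hi).2.1
  nlinarith

theorem main_ineq (A : Finset ℕ) (hA : A.Nonempty) (hpos : ∀ a ∈ A, 0 < a) (M : ℝ)
    (hM0 : 0 ≤ M) (hM : ∀ a ∈ A, ∀ b ∈ A, D a b ≤ M) :
    7 / 50 * (#A : ℝ) ^ 2 * (∑ a ∈ A, ∑ b ∈ A, D a b) ≤
      M * ((#(A + A) : ℝ) * (#(sqmul A) : ℝ) ^ 2) := by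
  set V := (Om A).image key with hV
  have hmemV : ∀ i ∈ Om A, key i ∈ V := fun i hi => Finset.mem_image_of_mem _ hi
  -- sums over Omega
  have s1 : ∑ i ∈ Om A, D i.1 i.2.1 = (#A : ℝ) ^ 2 * ∑ a ∈ A, ∑ b ∈ A, D a b := by
    unfold Om
    rw [Finset.sum_product]
    simp only [Finset.sum_product, Finset.sum_const, nsmul_eq_mul]
    simp only [← Finset.mul_sum, Finset.card_product]
    push_cast
    ring
  have s2 : ∑ i ∈ Om A, ∑ k ∈ insertNone (primesOf A), Phi A (lam k) i ≤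
      43 / 25 * (#A : ℝ) ^ 2 * ∑ a ∈ A, ∑ b ∈ A, D a b := by
    rw [Finset.sum_comm]
    have t1 : ∀ k ∈ insertNone (primesOf A), ∑ i ∈ Om A, Phi A (lam k) i ≤
        43 / 25 * (#A : ℝ) ^ 2 * Dbar A (lam k) := by
      intro k _
      have := total A (lam k) hA
      unfold Om Phi
      simp only [Finset.sum_product]
      exact this
    refine (Finset.sum_le_sum t1).trans (le_of_eq ?_)
    rw [← Finset.mul_sum]
    congr 1
    unfold Dbar
    rw [Finset.sum_comm]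
    refine Finset.sum_congr rfl fun a ha => ?_
    rw [Finset.sum_comm]
    refine Finset.sum_congr rfl fun b hb => ?_
    rw [D_eq (primesOf A) a b (hpos a ha).ne' (hpos b hb).ne' (sub_primesOf ha) (sub_primesOf hb)]
  have s3 : ∀ v ∈ V, 2 * ∑ i ∈ (Om A).filter (fun i => key i = v), D i.1 i.2.1 - 2 * M ≤
      ∑ i ∈ (Om A).filter (fun i => key i = v),
        ∑ k ∈ insertNone (primesOf A), Phi A (lam k) i := by
    intro v hv
    have hne : ((Om A).filter (fun i => key i = v)).Nonempty := by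
      rw [hV, Finset.mem_image] at hv
      obtain ⟨i, hi, rfl⟩ := hv
      exact ⟨i, Finset.mem_filter.2 ⟨hi, rfl⟩⟩
    have hk : ∀ i ∈ (Om A).filter (fun i => key i = v), key i = v :=
      fun i hi => (Finset.mem_filter.1 hi).2
    exact (fiber_lower A hpos M hM _ hne (Finset.filter_subset _ _) v hk).trans
      (fiber_bound A hA hpos _ hne (Finset.filter_subset _ _) v hk)
  have s4 := Finset.sum_le_sum s3
  rw [Finset.sum_sub_distrib, ← Finset.mul_sum, Finset.sum_fiberwise_of_maps_to hmemV,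
    Finset.sum_fiberwise_of_maps_to hmemV, Finset.sum_const, nsmul_eq_mul, s1] at s4
  have s5 : (#V : ℝ) ≤ (#(A + A) : ℝ) * (#(sqmul A) : ℝ) ^ 2 := by
    have hsub : V ⊆ (A + A) ×ˢ (sqmul A) ×ˢ (sqmul A) := by
      intro v hv
      rw [hV, Finset.mem_image] at hv
      obtain ⟨i, hi, rfl⟩ := hv
      simp only [Om, Finset.mem_product] at hi
      simp only [key, Finset.mem_product]
      exact ⟨Finset.add_mem_add hi.1 hi.2.1, Finset.mem_image₂_of_mem hi.1 hi.2.2.1,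
        Finset.mem_image₂_of_mem hi.2.1 hi.2.2.2⟩
    have := Finset.card_le_card hsub
    rw [Finset.card_product, Finset.card_product] at this
    calc (#V : ℝ) ≤ ((#(A + A) * (#(sqmul A) * #(sqmul A)) : ℕ) : ℝ) := by exact_mod_cast this
      _ = _ := by push_cast; ring
  have s6 : 2 * M * (#V : ℝ) ≤ 2 * M * ((#(A + A) : ℝ) * (#(sqmul A) : ℝ) ^ 2) :=
    mul_le_mul_of_nonneg_left s5 (by linarith)
  nlinarith

end Pool.Agent.Helper17.WES
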