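import Mathlib
import Pool.Agent.Helper17.WES.MainIneq

namespace Pool.Agent.Helper17.WES

open Finset
open scoped Pointwise

theorem D_comm (a b : ℕ) : D a b = D b a := by
  unfold D; rw [max_comm, Nat.gcd_comm]

theorem D_coord (S : Finset ℕ) (hS : ∀ a ∈ S, 0 < a) (a b : ℕ) (ha : a ∈ S) (hb : b ∈ S) :
    D a b = ∑ k ∈ insertNone (primesOf S), |lam k a - lam k b| :=
  D_eq (primesOf S) a b (hS a ha).ne' (hS b hb).ne' (sub_primesOf ha) (sub_primesOf hb)

theorem D_triangle (x y z : ℕ) (hx : 0 < x) (hy : 0 < y) (hz : 0 < z) :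
    D x z ≤ D x y + D y z := by
  have hS : ∀ a ∈ ({x, y, z} : Finset ℕ), 0 < a := by
    intro a ha
    simp only [Finset.mem_insert, Finset.mem_singleton] at ha
    rcases ha with rfl | rfl | rfl <;> assumption
  rw [D_coord {x, y, z} hS x z (by simp) (by simp), D_coord {x, y, z} hS x y (by simp) (by simp),
    D_coord {x, y, z} hS y z (by simp) (by simp), ← Finset.sum_add_distrib]
  exact Finset.sum_le_sum fun k _ => abs_sub_le _ _ _

theorem D_self (x : ℕ) : D x x = 0 := by
  unfold D; simp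

theorem D_pos (x y : ℕ) (hx : 0 < x) (hy : 0 < y) (h : x ≠ y) : 0 < D x y := by
  unfold D
  have hg : 0 < Nat.gcd x y := Nat.gcd_pos_of_pos_left _ hx
  have hlt : Nat.gcd x y < max x y := by
    rcases Nat.lt_or_gt_of_ne h with h1 | h1
    · exact lt_of_le_of_lt (Nat.gcd_le_left y hx) (lt_of_lt_of_le h1 (le_max_right _ _))
    · exact lt_of_le_of_lt (Nat.gcd_le_right x hy) (lt_of_lt_of_le h1 (le_max_left _ _))
  have : Real.log (Nat.gcd x y : ℕ) < Real.log (max x y : ℕ) :=
    Real.log_lt_log (by exact_mod_cast hg) (by exact_mod_cast hlt)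
  linarith

theorem D_label (x s y t : ℕ) (hx : 0 < x) (hs : 0 < s) (hy : 0 < y) (ht : 0 < t)
    (h : x * s = y * t) : D x y = D s t := by
  have hS : ∀ a ∈ ({x, s, y, t} : Finset ℕ), 0 < a := by
    intro a ha
    simp only [Finset.mem_insert, Finset.mem_singleton] at ha
    rcases ha with rfl | rfl | rfl | rfl <;> assumption
  rw [D_coord {x, s, y, t} hS x y (by simp) (by simp),
    D_coord {x, s, y, t} hS s t (by simp) (by simp)]
  refine Finset.sum_congr rfl fun k _ => ?_
  have e : lam k x + lam k s = lam k y + lam k t := by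
    rw [← lam_mul k x s hx.ne' hs.ne', h, lam_mul k y t hy.ne' ht.ne']
  rw [show lam k x - lam k y = -(lam k s - lam k t) by linarith, abs_neg]

theorem D_cross (x x' y y' : ℕ) (hx : 0 < x) (hx' : 0 < x') (hy : 0 < y) (hy' : 0 < y') :
    D (x * y') (x' * y) ≤ D x y + D x' y' := by
  set S : Finset ℕ := {x, x', y, y', x * y', x' * y} with hSdef
  have hS : ∀ a ∈ S, 0 < a := by
    intro a ha
    simp only [hSdef, Finset.mem_insert, Finset.mem_singleton] at ha
    rcases ha with rfl | rfl | rfl | rfl | rfl | rfl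
    · exact hx
    · exact hx'
    · exact hy
    · exact hy'
    · exact Nat.mul_pos hx hy'
    · exact Nat.mul_pos hx' hy
  rw [D_coord S hS (x * y') (x' * y) (by simp [hSdef]) (by simp [hSdef]),
    D_coord S hS x y (by simp [hSdef]) (by simp [hSdef]),
    D_coord S hS x' y' (by simp [hSdef]) (by simp [hSdef]), ← Finset.sum_add_distrib]
  refine Finset.sum_le_sum fun k _ => ?_
  rw [lam_mul k x y' hx.ne' hy'.ne', lam_mul k x' y hx'.ne' hy.ne',
    show lam k x + lam k y' - (lam k x' + lam k y) =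
      (lam k x - lam k y) - (lam k x' - lam k y') by ring]
  exact abs_sub _ _

theorem regular (X : Finset ℕ) (hX : X.Nonempty) (hpos : ∀ a ∈ X, 0 < a) :
    (∃ B ⊆ X, 3 * #X ≤ 4 * #B ∧ (#B : ℝ) ^ 4 ≤ 258 * ((#(B + B) : ℝ) * (#(sqmul B) : ℝ) ^ 2)) ∨
      #X ^ 4 ≤ 32 * (#(X + X) * #(X * X) ^ 2) := by
  classical
  have hm : 0 < #X := hX.card_pos
  -- the set of admissible pairs
  set W := (X ×ˢ X).filter (fun p => #X ≤ 2 * #(X.filter (fun y => D p.1 y ≤ D p.1 p.2))) with hW
  have hWne : W.Nonempty := by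
    obtain ⟨x, hx⟩ := hX
    obtain ⟨y, hy, hymax⟩ := X.exists_max_image (fun y => D x y) ⟨x, hx⟩
    refine ⟨(x, y), ?_⟩
    rw [hW, Finset.mem_filter, Finset.mem_product]
    refine ⟨⟨hx, hy⟩, ?_⟩
    have : X.filter (fun z => D x z ≤ D x y) = X :=
      Finset.filter_true_of_mem fun z hz => hymax z hz
    simp only
    rw [this]; omega
  obtain ⟨⟨x0, y0⟩, hp0, hmin⟩ := W.exists_min_image (fun p => D p.1 p.2) hWne
  rw [hW, Finset.mem_filter, Finset.mem_product] at hp0
  obtain ⟨⟨hx0, hy0⟩, hA0⟩ := hp0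
  simp only at hA0 hmin hx0 hy0
  set ρ := D x0 y0 with hρ
  have hρ0 : 0 ≤ ρ := D_nonneg _ _
  have hopen : ∀ x ∈ X, 2 * #(X.filter (fun y => D x y < ρ)) < #X := by
    intro x hx
    by_contra hcon
    push Not at hcon
    have hne : (X.filter (fun y => D x y < ρ)).Nonempty := by
      rw [← Finset.card_pos]; omega
    obtain ⟨y1, hy1, hy1max⟩ := Finset.exists_max_image _ (fun y => D x y) hne
    rw [Finset.mem_filter] at hy1
    have hmemW : (x, y1) ∈ W := by
      rw [hW, Finset.mem_filter, Finset.mem_product]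
      refine ⟨⟨hx, hy1.1⟩, ?_⟩
      simp only
      refine hcon.trans (Nat.mul_le_mul_left _ (Finset.card_le_card ?_))
      intro z hz
      have hz' := hz
      rw [Finset.mem_filter] at hz
      rw [Finset.mem_filter]
      exact ⟨hz.1, hy1max z hz'⟩
    have := hmin _ hmemW
    simp only at this
    linarith [hy1.2]
  set A0 := X.filter (fun y => D x0 y ≤ ρ) with hA0def
  set A1 := X.filter (fun y => D x0 y ≤ 6 * ρ) with hA1def
  by_cases hcase : 3 * #X ≤ 4 * #A1
  · left
    refine ⟨A1, Finset.filter_subset _ _, hcase, ?_⟩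
    have hx0A1 : x0 ∈ A1 := by
      rw [hA1def, Finset.mem_filter]
      exact ⟨hx0, by rw [D_self]; linarith⟩
    have hA1ne : A1.Nonempty := ⟨x0, hx0A1⟩
    have hA1pos : ∀ a ∈ A1, 0 < a := fun a ha => hpos a (Finset.mem_filter.1 ha).1
    have hdiam : ∀ a ∈ A1, ∀ b ∈ A1, D a b ≤ 12 * ρ := by
      intro a ha b hb
      have h1 := (Finset.mem_filter.1 ha).2
      have h2 := (Finset.mem_filter.1 hb).2
      have := D_triangle a x0 b (hA1pos a ha) (hpos x0 hx0) (hA1pos b hb)
      rw [D_comm a x0] at this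
      linarith
    have hmain := main_ineq A1 hA1ne hA1pos (12 * ρ) (by linarith) hdiam
    have hn : (0 : ℝ) < #A1 := by exact_mod_cast hA1ne.card_pos
    have hsum : (#A1 : ℝ) ^ 2 * ρ / 3 ≤ ∑ a ∈ A1, ∑ b ∈ A1, D a b := by
      have h1 : ∀ a ∈ A1, (#A1 : ℝ) * ρ / 3 ≤ ∑ b ∈ A1, D a b := by
        intro a ha
        have haX : a ∈ X := (Finset.mem_filter.1 ha).1
        have h2 := hopen a haX
        have h3 : #(A1.filter (fun b => D a b < ρ)) ≤ #(X.filter (fun b => D a b < ρ)) :=
          Finset.card_le_card (Finset.filter_subset_filter _ (Finset.filter_subset _ _))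
        have h4 : #(A1.filter (fun b => D a b < ρ)) + #(A1.filter (fun b => ¬ D a b < ρ)) = #A1 :=
          Finset.card_filter_add_card_filter_not _
        have h5 : #A1 ≤ 3 * #(A1.filter (fun b => ¬ D a b < ρ)) := by omega
        have h5' : (#A1 : ℝ) ≤ 3 * #(A1.filter (fun b => ¬ D a b < ρ)) := by exact_mod_cast h5
        calc (#A1 : ℝ) * ρ / 3 ≤ (#(A1.filter (fun b => ¬ D a b < ρ)) : ℝ) * ρ := by nlinarith
          _ = ∑ b ∈ A1.filter (fun b => ¬ D a b < ρ), ρ := by
              rw [Finset.sum_const, nsmul_eq_mul]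
          _ ≤ ∑ b ∈ A1.filter (fun b => ¬ D a b < ρ), D a b := by
              refine Finset.sum_le_sum fun b hb => ?_
              exact not_lt.1 (Finset.mem_filter.1 hb).2
          _ ≤ ∑ b ∈ A1, D a b := by
              refine Finset.sum_le_sum_of_subset_of_nonneg (Finset.filter_subset _ _) ?_
              intro b _ _
              exact D_nonneg _ _
      calc (#A1 : ℝ) ^ 2 * ρ / 3 = ∑ a ∈ A1, (#A1 : ℝ) * ρ / 3 := by
            rw [Finset.sum_const, nsmul_eq_mul]; ring
        _ ≤ _ := Finset.sum_le_sum h1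
    set Z := (#(A1 + A1) : ℝ) * (#(sqmul A1) : ℝ) ^ 2 with hZ
    have hZ0 : 0 ≤ Z := by positivity
    rcases hρ0.eq_or_lt with h0 | h0
    · -- rho = 0 : the set is a single point
      have hone : ∀ a ∈ A1, a = x0 := by
        intro a ha
        by_contra hne
        have h1 := D_pos a x0 (hA1pos a ha) (hpos x0 hx0) hne
        have h2 := hdiam a ha x0 hx0A1
        rw [← h0] at h2
        linarith
      have hA1eq : A1 = {x0} := by
        ext a; rw [Finset.mem_singleton]
        exact ⟨hone a, fun h => h ▸ hx0A1⟩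
      rw [hZ, hA1eq]
      have : sqmul {x0} = {x0 ^ 2 * x0} := by simp [sqmul]
      rw [this]
      simp
    · have h6 : 7 / 50 * (#A1 : ℝ) ^ 2 * ((#A1 : ℝ) ^ 2 * ρ / 3) ≤ 12 * ρ * Z :=
        (mul_le_mul_of_nonneg_left hsum (by positivity)).trans hmain
      have h7 : ρ * (7 / 150 * (#A1 : ℝ) ^ 4) ≤ ρ * (12 * Z) := by nlinarith
      have h8 := le_of_mul_le_mul_left h7 h0
      nlinarith
  · right
    push Not at hcase
    have hinj : #((X \ A1) ×ˢ A0 ×ˢ A0 ×ˢ A0) ≤ #((X + X) ×ˢ (X * X) ×ˢ (X * X)) := by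
      apply Finset.card_le_card_of_injOn
        (fun i : ℕ × ℕ × ℕ × ℕ => (i.1 + i.2.1, i.1 * i.2.2.1, i.2.1 * i.2.2.2))
      · intro i hi
        simp only [Finset.coe_product, Set.mem_prod, Finset.mem_coe, Finset.mem_sdiff] at hi ⊢
        obtain ⟨⟨h1, _⟩, h2, h3, h4⟩ := hi
        have h2 := (Finset.mem_filter.1 h2).1
        have h3 := (Finset.mem_filter.1 h3).1
        have h4 := (Finset.mem_filter.1 h4).1
        exact ⟨Finset.add_mem_add h1 h2, Finset.mul_mem_mul h1 h3, Finset.mul_mem_mul h2 h4⟩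
      · rintro ⟨x, x', s, s'⟩ hi ⟨y, y', t, t'⟩ hj hij
        simp only [Finset.coe_product, Set.mem_prod, Finset.mem_coe, Finset.mem_sdiff] at hi hj
        simp only [Prod.mk.injEq] at hij
        obtain ⟨⟨hxX, hx⟩, hx', hs, hs'⟩ := hi
        obtain ⟨⟨hyX, hy⟩, hy', ht, ht'⟩ := hj
        obtain ⟨k1, k2, k3⟩ := hij
        have px := hpos x hxX
        have py := hpos y hyX
        have px0 := hpos x0 hx0
        have mem0 : ∀ z ∈ A0, 0 < z ∧ D x0 z ≤ ρ := fun z hz =>
          ⟨hpos z (Finset.mem_filter.1 hz).1, (Finset.mem_filter.1 hz).2⟩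
        obtain ⟨px', dx'⟩ := mem0 x' hx'
        obtain ⟨py', dy'⟩ := mem0 y' hy'
        obtain ⟨ps, ds⟩ := mem0 s hs
        obtain ⟨ps', ds'⟩ := mem0 s' hs'
        obtain ⟨pt, dt⟩ := mem0 t ht
        obtain ⟨pt', dt'⟩ := mem0 t' ht'
        have dx : 6 * ρ < D x0 x := by
          by_contra hc
          exact hx (Finset.mem_filter.2 ⟨hxX, not_lt.1 hc⟩)
        have dy : 6 * ρ < D x0 y := by
          by_contra hc
          exact hy (Finset.mem_filter.2 ⟨hyX, not_lt.1 hc⟩)
        by_cases hxy : x = y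
        · subst hxy
          have h2 : x' = y' := by omega
          subst h2
          have h3 : s = t := Nat.eq_of_mul_eq_mul_left px k2
          have h4 : s' = t' := Nat.eq_of_mul_eq_mul_left px' k3
          rw [h3, h4]
        · exfalso
          have hg := gap x x' y y' px px' py py' hxy k1
          have hc := D_cross x x' y y' px px' py py'
          have e1 := D_label x s y t px ps py pt k2
          have e2 := D_label x' s' y' t' px' ps' py' pt' k3
          have t1 := D_triangle s x0 t ps px0 pt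
          have t2 := D_triangle s' x0 t' ps' px0 pt'
          rw [D_comm s x0] at t1
          rw [D_comm s' x0] at t2
          have t3 := D_triangle x0 x' x px0 px' px
          have t4 := D_triangle x0 y' y px0 py' py
          rw [D_comm x' x] at t3
          rw [D_comm y' y] at t4
          linarith
    rw [Finset.card_product, Finset.card_product, Finset.card_product, Finset.card_product,
      Finset.card_product] at hinj
    have h9 : #(X \ A1) = #X - #A1 := Finset.card_sdiff_of_subset (Finset.filter_subset _ _)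
    have h10 : #X ≤ 4 * #(X \ A1) := by omega
    have h11 : #X ≤ 2 * #A0 := hA0
    calc #X ^ 4 = #X * (#X * (#X * #X)) := by ring
      _ ≤ (4 * #(X \ A1)) * ((2 * #A0) * ((2 * #A0) * (2 * #A0))) := by
          gcongr
      _ = 32 * (#(X \ A1) * (#A0 * (#A0 * #A0))) := by ring
      _ ≤ 32 * (#(X + X) * (#(X * X) * #(X * X))) := Nat.mul_le_mul_left _ hinj
      _ = _ := by ring

end Pool.Agent.Helper17.WES
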