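import Mathlib

namespace Pool.Agent.Helper17.WES

open Finset
open scoped Pointwise

theorem petridis_step {G : Type*} [DecidableEq G] [CommGroup G] (A A1 : Finset G)
    (hne : A1.Nonempty) (hsub : A1 ⊆ A) (hbig : #A ≤ 2 * #A1) :
    ∃ U ⊆ A1, U.Nonempty ∧ #(U * A * A) * #A ^ 2 ≤ 4 * #(A * A) ^ 2 * #U := by
  have hAne : A.Nonempty := hne.mono hsub
  -- minimise the ratio
  have hfin : (A1.powerset.filter (fun U => U.Nonempty)).Nonempty :=
    ⟨A1, by simp [hne]⟩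
  obtain ⟨U, hU, hmin⟩ := Finset.exists_min_image _ (fun U : Finset G => (#(U * A) : ℚ) / #U) hfin
  rw [Finset.mem_filter, Finset.mem_powerset] at hU
  obtain ⟨hUsub, hUne⟩ := hU
  have hUpos : (0 : ℚ) < #U := by exact_mod_cast hUne.card_pos
  have hcross : ∀ V ⊆ A1, #(U * A) * #V ≤ #(V * A) * #U := by
    intro V hV
    rcases V.eq_empty_or_nonempty with rfl | hVne
    · simp
    have hVpos : (0 : ℚ) < #V := by exact_mod_cast hVne.card_pos
    have := hmin V (by simp [hV, hVne])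
    rw [div_le_div_iff₀ hUpos hVpos] at this
    exact_mod_cast this
  have h1 : #(U * A) * #A1 ≤ #(A * A) * #U :=
    (hcross A1 subset_rfl).trans (Nat.mul_le_mul_right _
      (Finset.card_le_card (Finset.mul_subset_mul_right hsub)))
  have h2 : #(U * A) * #A ≤ 2 * (#(A * A) * #U) := by
    calc #(U * A) * #A ≤ #(U * A) * (2 * #A1) := Nat.mul_le_mul_left _ hbig
      _ = 2 * (#(U * A) * #A1) := by ring
      _ ≤ 2 * (#(A * A) * #U) := Nat.mul_le_mul_left _ h1
  have h3 := pluennecke_petridis_inequality_mul (A := U) (B := A) A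
    (fun V hV => hcross V (hV.trans hUsub))
  rw [_root_.mul_comm A U] at h3
  refine ⟨U, hUsub, hUne, ?_⟩
  have hUp : 0 < #U := hUne.card_pos
  apply Nat.le_of_mul_le_mul_right _ hUp
  calc #(U * A * A) * #A ^ 2 * #U = (#(U * A * A) * #U) * #A ^ 2 := by ring
    _ ≤ (#(U * A) * #(U * A)) * #A ^ 2 := Nat.mul_le_mul_right _ h3
    _ = (#(U * A) * #A) * (#(U * A) * #A) := by ring
    _ ≤ (2 * (#(A * A) * #U)) * (2 * (#(A * A) * #U)) := Nat.mul_le_mul h2 h2
    _ = 4 * #(A * A) ^ 2 * #U * #U := by ring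

theorem petridis_large {G : Type*} [DecidableEq G] [CommGroup G] (A : Finset G) :
    ∃ X ⊆ A, #A ≤ 2 * #X ∧ #(X * A * A) * #A ^ 2 ≤ 4 * #(A * A) ^ 2 * #X := by
  have hfin : (A.powerset.filter
      (fun X => #(X * A * A) * #A ^ 2 ≤ 4 * #(A * A) ^ 2 * #X)).Nonempty :=
    ⟨∅, by simp⟩
  obtain ⟨X, hX, hmax⟩ := Finset.exists_max_image _ (fun X : Finset G => #X) hfin
  rw [Finset.mem_filter, Finset.mem_powerset] at hX
  obtain ⟨hXsub, hXb⟩ := hX
  refine ⟨X, hXsub, ?_, hXb⟩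
  by_contra hcon
  push Not at hcon
  have hc : #(A \ X) = #A - #X := Finset.card_sdiff_of_subset hXsub
  have hne : (A \ X).Nonempty := by
    rw [← Finset.card_pos]; omega
  obtain ⟨U, hU, hUne, hUb⟩ := petridis_step A (A \ X) hne Finset.sdiff_subset (by omega)
  have hdisj : Disjoint X U := by
    rw [Finset.disjoint_left]
    intro a ha hb
    exact (Finset.mem_sdiff.1 (hU hb)).2 ha
  have hcard : #(X ∪ U) = #X + #U := Finset.card_union_of_disjoint hdisj
  have hmem : X ∪ U ∈ A.powerset.filter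
      (fun X => #(X * A * A) * #A ^ 2 ≤ 4 * #(A * A) ^ 2 * #X) := by
    rw [Finset.mem_filter, Finset.mem_powerset]
    refine ⟨Finset.union_subset hXsub (hU.trans Finset.sdiff_subset), ?_⟩
    rw [hcard, Finset.union_mul, Finset.union_mul]
    calc #(X * A * A ∪ U * A * A) * #A ^ 2 ≤ (#(X * A * A) + #(U * A * A)) * #A ^ 2 :=
          Nat.mul_le_mul_right _ (Finset.card_union_le _ _)
      _ = #(X * A * A) * #A ^ 2 + #(U * A * A) * #A ^ 2 := by ring
      _ ≤ 4 * #(A * A) ^ 2 * #X + 4 * #(A * A) ^ 2 * #U := Nat.add_le_add hXb hUb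
      _ = 4 * #(A * A) ^ 2 * (#X + #U) := by ring
  have := hmax _ hmem
  have hUp := hUne.card_pos
  omega

/-- Version for positive integers. -/
theorem petridis_nat (A : Finset ℕ) (hpos : ∀ a ∈ A, 0 < a) :
    ∃ X ⊆ A, #A ≤ 2 * #X ∧ #(X * A * A) * #A ^ 2 ≤ 4 * #(A * A) ^ 2 * #X := by
  classical
  let φ : ℕ → ℚˣ := fun n => if h : (n : ℚ) = 0 then 1 else Units.mk0 (n : ℚ) h
  have hφ : ∀ n : ℕ, 0 < n → ((φ n : ℚˣ) : ℚ) = n := by
    intro n hn
    have : (n : ℚ) ≠ 0 := by exact_mod_cast hn.ne'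
    simp only [φ, this, dite_false, Units.val_mk0]
  have hinj : ∀ m n : ℕ, 0 < m → 0 < n → φ m = φ n → m = n := by
    intro m n hm hn h
    have : ((φ m : ℚˣ) : ℚ) = φ n := by rw [h]
    rw [hφ m hm, hφ n hn] at this
    exact_mod_cast this
  have hmul : ∀ m n : ℕ, 0 < m → 0 < n → φ (m * n) = φ m * φ n := by
    intro m n hm hn
    apply Units.ext
    rw [Units.val_mul, hφ m hm, hφ n hn, hφ (m * n) (Nat.mul_pos hm hn)]
    push_cast; rfl
  have himg : ∀ S T : Finset ℕ, (∀ a ∈ S, 0 < a) → (∀ a ∈ T, 0 < a) →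
      (S * T).image φ = S.image φ * T.image φ := by
    intro S T hS hT
    ext z
    simp only [Finset.mem_image, Finset.mem_mul]
    constructor
    · rintro ⟨w, ⟨a, ha, b, hb, rfl⟩, rfl⟩
      exact ⟨φ a, ⟨a, ha, rfl⟩, φ b, ⟨b, hb, rfl⟩, (hmul a b (hS a ha) (hT b hb)).symm⟩
    · rintro ⟨_, ⟨a, ha, rfl⟩, _, ⟨b, hb, rfl⟩, rfl⟩
      exact ⟨a * b, ⟨a, ha, b, hb, rfl⟩, hmul a b (hS a ha) (hT b hb)⟩
  have hcardimg : ∀ S : Finset ℕ, (∀ a ∈ S, 0 < a) → #(S.image φ) = #S := by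
    intro S hS
    apply Finset.card_image_of_injOn
    intro a ha b hb hab
    exact hinj a b (hS a ha) (hS b hb) hab
  have hprodpos : ∀ S T : Finset ℕ, (∀ a ∈ S, 0 < a) → (∀ a ∈ T, 0 < a) → ∀ a ∈ S * T, 0 < a := by
    intro S T hS hT a ha
    rw [Finset.mem_mul] at ha
    obtain ⟨b, hb, c, hc, rfl⟩ := ha
    exact Nat.mul_pos (hS b hb) (hT c hc)
  obtain ⟨Y, hY, h1, h2⟩ := petridis_large (A.image φ)
  let X := A.filter (fun a => φ a ∈ Y)
  have hXA : X ⊆ A := Finset.filter_subset _ _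
  have hXY : X.image φ = Y := by
    ext z
    simp only [X, Finset.mem_image, Finset.mem_filter]
    constructor
    · rintro ⟨a, ⟨_, ha⟩, rfl⟩; exact ha
    · intro hz
      have := hY hz
      rw [Finset.mem_image] at this
      obtain ⟨a, ha, rfl⟩ := this
      exact ⟨a, ⟨ha, hz⟩, rfl⟩
  have hXpos : ∀ a ∈ X, 0 < a := fun a ha => hpos a (hXA ha)
  have c1 : #(A.image φ) = #A := hcardimg A hpos
  have c2 : #Y = #X := by rw [← hXY]; exact hcardimg X hXpos
  have c3 : #(A.image φ * A.image φ) = #(A * A) := by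
    rw [← himg A A hpos hpos]; exact hcardimg _ (hprodpos A A hpos hpos)
  have c4 : #(Y * A.image φ * A.image φ) = #(X * A * A) := by
    rw [← hXY, ← himg X A hXpos hpos, ← himg (X * A) A (hprodpos X A hXpos hpos) hpos]
    exact hcardimg _ (hprodpos _ _ (hprodpos X A hXpos hpos) hpos)
  refine ⟨X, hXA, ?_, ?_⟩
  · rw [c1, c2] at h1; exact h1
  · rw [c1, c2, c3, c4] at h2; exact h2

end Pool.Agent.Helper17.WES
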