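import Mathlib
import Pool.Agent.Helper17.WES.Regular
import Pool.Agent.Helper17.WES.Petridis

namespace Pool.Agent.Helper17.WES

open Finset
open scoped Pointwise

theorem final_nat (A : Finset ℕ) (hpos : ∀ a ∈ A, 0 < a) :
    #A ^ 6 ≤ 53000 * (#(A + A) * #(A * A) ^ 4) := by
  rcases A.eq_empty_or_nonempty with rfl | hne
  · simp
  obtain ⟨X, hXA, hX1, hX2⟩ := petridis_nat A hpos
  have hA : 0 < #A := hne.card_pos
  have hXne : X.Nonempty := by rw [← Finset.card_pos]; omega
  have hXpos : ∀ a ∈ X, 0 < a := fun a ha => hpos a (hXA ha)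
  have hAA : #A ≤ #(A * A) := by
    obtain ⟨a, ha⟩ := hne
    have : #(A.image (fun b => a * b)) = #A := by
      apply Finset.card_image_of_injective
      intro b c h
      exact Nat.eq_of_mul_eq_mul_left (hpos a ha) h
    rw [← this]
    apply Finset.card_le_card
    intro z hz
    rw [Finset.mem_image] at hz
    obtain ⟨b, hb, rfl⟩ := hz
    exact Finset.mul_mem_mul ha hb
  rcases regular X hXne hXpos with ⟨B, hBX, hB1, hB2⟩ | h
  · have hBA : B ⊆ A := hBX.trans hXA
    have hs : sqmul B ⊆ X * A * A := by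
      intro z hz
      rw [sqmul, Finset.mem_image₂] at hz
      obtain ⟨a, ha, b, hb, rfl⟩ := hz
      rw [show a ^ 2 * b = a * a * b by ring]
      exact Finset.mul_mem_mul (Finset.mul_mem_mul (hBX ha) (hBA ha)) (hBA hb)
    have hs1 : #(sqmul B) ≤ #(X * A * A) := Finset.card_le_card hs
    have hs2 : #(B + B) ≤ #(A + A) := Finset.card_le_card (Finset.add_subset_add hBA hBA)
    have hB3 : #B ^ 4 ≤ 258 * (#(B + B) * #(sqmul B) ^ 2) := by exact_mod_cast hB2
    have h1 : #B ^ 4 * #A ^ 4 ≤ 258 * (#(A + A) * (4 * #(A * A) ^ 2 * #X) ^ 2) := by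
      calc #B ^ 4 * #A ^ 4 ≤ 258 * (#(B + B) * #(sqmul B) ^ 2) * #A ^ 4 :=
            Nat.mul_le_mul_right _ hB3
        _ ≤ 258 * (#(A + A) * #(X * A * A) ^ 2) * #A ^ 4 := by gcongr
        _ = 258 * (#(A + A) * (#(X * A * A) * #A ^ 2) ^ 2) := by ring
        _ ≤ 258 * (#(A + A) * (4 * #(A * A) ^ 2 * #X) ^ 2) := by gcongr
    have h2 : 81 * #X ^ 4 ≤ 256 * #B ^ 4 := by
      calc 81 * #X ^ 4 = (3 * #X) ^ 4 := by ring
        _ ≤ (4 * #B) ^ 4 := by gcongr
        _ = 256 * #B ^ 4 := by ring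
    have hXp : 0 < #X ^ 2 := by
      have := hXne.card_pos
      positivity
    have h3 : 81 * #X ^ 2 * #A ^ 4 ≤ 256 * 258 * 16 * (#(A + A) * #(A * A) ^ 4) := by
      apply Nat.le_of_mul_le_mul_right _ hXp
      calc 81 * #X ^ 2 * #A ^ 4 * #X ^ 2 = (81 * #X ^ 4) * #A ^ 4 := by ring
        _ ≤ (256 * #B ^ 4) * #A ^ 4 := Nat.mul_le_mul_right _ h2
        _ = 256 * (#B ^ 4 * #A ^ 4) := by ring
        _ ≤ 256 * (258 * (#(A + A) * (4 * #(A * A) ^ 2 * #X) ^ 2)) := Nat.mul_le_mul_left _ h1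
        _ = _ := by ring
    have h4 : #A ^ 2 ≤ 4 * #X ^ 2 := by
      calc #A ^ 2 ≤ (2 * #X) ^ 2 := by gcongr
        _ = 4 * #X ^ 2 := by ring
    have h5 : 81 * #A ^ 6 ≤ 4 * (256 * 258 * 16 * (#(A + A) * #(A * A) ^ 4)) := by
      calc 81 * #A ^ 6 = 81 * #A ^ 2 * #A ^ 4 := by ring
        _ ≤ 81 * (4 * #X ^ 2) * #A ^ 4 := by gcongr
        _ = 4 * (81 * #X ^ 2 * #A ^ 4) := by ring
        _ ≤ _ := Nat.mul_le_mul_left _ h3
    omega
  · have h1 : #A ^ 4 ≤ 16 * (32 * (#(A + A) * #(A * A) ^ 2)) := by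
      calc #A ^ 4 ≤ (2 * #X) ^ 4 := by gcongr
        _ = 16 * #X ^ 4 := by ring
        _ ≤ 16 * (32 * (#(X + X) * #(X * X) ^ 2)) := Nat.mul_le_mul_left _ h
        _ ≤ 16 * (32 * (#(A + A) * #(A * A) ^ 2)) := by
          have := Finset.card_le_card (Finset.add_subset_add hXA hXA)
          have := Finset.card_le_card (Finset.mul_subset_mul hXA hXA)
          gcongr
    have h2 : #A ^ 2 ≤ #(A * A) ^ 2 := by gcongr
    calc #A ^ 6 = #A ^ 4 * #A ^ 2 := by ring
      _ ≤ (16 * (32 * (#(A + A) * #(A * A) ^ 2))) * #(A * A) ^ 2 := Nat.mul_le_mul h1 h2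
      _ = 512 * (#(A + A) * #(A * A) ^ 4) := by ring
      _ ≤ 53000 * (#(A + A) * #(A * A) ^ 4) := Nat.mul_le_mul_right _ (by norm_num)

/-- For a set of integers whose elements are all positive, or all negative after a sign `e`. -/
theorem final_sign (A : Finset ℤ) (e : ℤ) (he : e * e = 1) (hpos : ∀ a ∈ A, 0 < e * a) :
    #A ^ 6 ≤ 53000 * (#(A + A) * #(A * A) ^ 4) := by
  set B := A.image (fun a => (e * a).toNat) with hB
  have hval : ∀ a ∈ A, (((e * a).toNat : ℕ) : ℤ) = e * a := fun a ha =>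
    Int.toNat_of_nonneg (hpos a ha).le
  have hcancel : ∀ a b : ℤ, e * a = e * b → a = b := by
    intro a b h
    have : e * e * a = e * e * b := by rw [mul_assoc, mul_assoc, h]
    rwa [he, one_mul, one_mul] at this
  have hcard : #B = #A := by
    apply Finset.card_image_of_injOn
    intro a ha b hb h
    have h' : (((e * a).toNat : ℕ) : ℤ) = (((e * b).toNat : ℕ) : ℤ) := by
      exact_mod_cast h
    rw [hval a ha, hval b hb] at h'
    exact hcancel a b h'
  have hBpos : ∀ b ∈ B, 0 < b := by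
    intro b hb
    rw [hB, Finset.mem_image] at hb
    obtain ⟨a, ha, rfl⟩ := hb
    have := hpos a ha
    omega
  have hadd : #(B + B) ≤ #(A + A) := by
    apply Finset.card_le_card_of_injOn (fun n : ℕ => e * (n : ℤ))
    · intro z hz
      rw [Finset.mem_coe, Finset.mem_add] at hz
      obtain ⟨b, hb, c, hc, rfl⟩ := hz
      rw [hB, Finset.mem_image] at hb hc
      obtain ⟨a, ha, rfl⟩ := hb
      obtain ⟨a', ha', rfl⟩ := hc
      rw [Finset.mem_coe]
      have : e * (((e * a).toNat + (e * a').toNat : ℕ) : ℤ) = a + a' := by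
        rw [Nat.cast_add, hval a ha, hval a' ha', mul_add, ← mul_assoc, ← mul_assoc, he, one_mul,
          one_mul]
      simp only
      rw [this]
      exact Finset.add_mem_add ha ha'
    · intro z _ w _ h
      have := hcancel _ _ h
      exact_mod_cast this
  have hmul : #(B * B) ≤ #(A * A) := by
    apply Finset.card_le_card_of_injOn (fun n : ℕ => (n : ℤ))
    · intro z hz
      rw [Finset.mem_coe, Finset.mem_mul] at hz
      obtain ⟨b, hb, c, hc, rfl⟩ := hz
      rw [hB, Finset.mem_image] at hb hc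
      obtain ⟨a, ha, rfl⟩ := hb
      obtain ⟨a', ha', rfl⟩ := hc
      rw [Finset.mem_coe]
      have : (((e * a).toNat * (e * a').toNat : ℕ) : ℤ) = a * a' := by
        rw [Nat.cast_mul, hval a ha, hval a' ha']
        calc e * a * (e * a') = e * e * (a * a') := by ring
          _ = a * a' := by rw [he, one_mul]
      simp only
      rw [this]
      exact Finset.mul_mem_mul ha ha'
    · intro z _ w _ h
      simp only at h
      exact_mod_cast h
  have := final_nat B hBpos
  rw [hcard] at this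
  exact this.trans (by gcongr)

theorem final_int (A : Finset ℤ) :
    #A ^ 6 ≤ 40000000 * (#(A + A) * #(A * A) ^ 4) := by
  rcases A.eq_empty_or_nonempty with rfl | hne
  · simp
  set P := A.filter (fun a => 0 < a) with hP
  set N := A.filter (fun a => a < 0) with hN
  have hsub : A ⊆ P ∪ N ∪ {0} := by
    intro a ha
    rcases lt_trichotomy a 0 with h | h | h
    · simp [hN, ha, h]
    · simp [h]
    · simp [hP, ha, h]
  have hc : #A ≤ #P + #N + 1 := by
    calc #A ≤ #(P ∪ N ∪ {0}) := Finset.card_le_card hsub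
      _ ≤ #(P ∪ N) + #({0} : Finset ℤ) := Finset.card_union_le _ _
      _ ≤ #P + #N + 1 := by
        rw [Finset.card_singleton]
        have := Finset.card_union_le P N
        omega
  have key : ∀ S ⊆ A, 0 < #S → #A ≤ 2 * #S + 1 →
      #S ^ 6 ≤ 53000 * (#(S + S) * #(S * S) ^ 4) →
      #A ^ 6 ≤ 40000000 * (#(A + A) * #(A * A) ^ 4) := by
    intro S hS h0 h1 h2
    have h3 : #A ≤ 3 * #S := by omega
    have a1 := Finset.card_le_card (Finset.add_subset_add hS hS)
    have a2 := Finset.card_le_card (Finset.mul_subset_mul hS hS)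
    calc #A ^ 6 ≤ (3 * #S) ^ 6 := by gcongr
      _ = 729 * #S ^ 6 := by ring
      _ ≤ 729 * (53000 * (#(S + S) * #(S * S) ^ 4)) := Nat.mul_le_mul_left _ h2
      _ ≤ 729 * (53000 * (#(A + A) * #(A * A) ^ 4)) := by gcongr
      _ = 38637000 * (#(A + A) * #(A * A) ^ 4) := by ring
      _ ≤ 40000000 * (#(A + A) * #(A * A) ^ 4) := Nat.mul_le_mul_right _ (by norm_num)
  have hPb := final_sign P 1 (by norm_num) (fun a ha => by
    have := (Finset.mem_filter.1 ha).2; linarith)
  have hNb := final_sign N (-1) (by norm_num) (fun a ha => by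
    have := (Finset.mem_filter.1 ha).2; linarith)
  by_cases hbig : #N ≤ #P
  · by_cases h0 : 0 < #P
    · exact key P (Finset.filter_subset _ _) h0 (by omega) hPb
    · have hA1 : #A ≤ 1 := by omega
      have hA2 : #A = 1 := le_antisymm hA1 hne.card_pos
      have b1 : 0 < #(A + A) := (hne.add hne).card_pos
      have b2 : 0 < #(A * A) := (hne.mul hne).card_pos
      rw [hA2, one_pow]
      have : 0 < #(A + A) * #(A * A) ^ 4 := by positivity
      omega
  · exact key N (Finset.filter_subset _ _) (by omega) (by omega) hNb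

end Pool.Agent.Helper17.WES
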